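import Pool.Agent.H98.EU.Defs

/-!
# Renaming of variables, finiteness, pairing in models of `PA⁻`
-/

set_option autoImplicit false

namespace Pool.Agent.H98.EU

/-! ### renaming -/

def Tm.ren (ρ : ℕ → ℕ) : Tm → Tm
  | .var i => .var (ρ i)
  | .zero => .zero
  | .one => .one
  | .add s t => .add (s.ren ρ) (t.ren ρ)
  | .mul s t => .mul (s.ren ρ) (t.ren ρ)

def Fm.ren (ρ : ℕ → ℕ) : Fm → Fm
  | .eq s t => .eq (s.ren ρ) (t.ren ρ)
  | .lt s t => .lt (s.ren ρ) (t.ren ρ)
  | .neg A => .neg (A.ren ρ)
  | .and A B => .and (A.ren ρ) (B.ren ρ)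
  | .or A B => .or (A.ren ρ) (B.ren ρ)
  | .ex i t A => .ex (ρ i) (t.ren ρ) (A.ren ρ)

theorem Tm.len_ren (ρ : ℕ → ℕ) (t : Tm) : (t.ren ρ).len = t.len := by
  induction t with
  | var i => rfl
  | zero => rfl
  | one => rfl
  | add s t hs ht => simp only [Tm.ren, Tm.len, hs, ht]
  | mul s t hs ht => simp only [Tm.ren, Tm.len, hs, ht]

theorem Fm.len_ren (ρ : ℕ → ℕ) (A : Fm) : (A.ren ρ).len = A.len := by
  induction A with
  | eq s t => simp only [Fm.ren, Fm.len, Tm.len_ren]
  | lt s t => simp only [Fm.ren, Fm.len, Tm.len_ren]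
  | neg A h => simp only [Fm.ren, Fm.len, h]
  | and A B hA hB => simp only [Fm.ren, Fm.len, hA, hB]
  | or A B hA hB => simp only [Fm.ren, Fm.len, hA, hB]
  | ex i t A h => simp only [Fm.ren, Fm.len, Tm.len_ren, h]

theorem Tm.vars_ren (ρ : ℕ → ℕ) (t : Tm) : (t.ren ρ).vars = t.vars.image ρ := by
  induction t with
  | var i => simp [Tm.ren, Tm.vars]
  | zero => simp [Tm.ren, Tm.vars]
  | one => simp [Tm.ren, Tm.vars]
  | add s t hs ht => simp only [Tm.ren, Tm.vars, hs, ht, Finset.image_union]
  | mul s t hs ht => simp only [Tm.ren, Tm.vars, hs, ht, Finset.image_union]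

theorem Fm.vars_ren (ρ : ℕ → ℕ) (A : Fm) : (A.ren ρ).vars = A.vars.image ρ := by
  induction A with
  | eq s t => simp only [Fm.ren, Fm.vars, Tm.vars_ren, Finset.image_union]
  | lt s t => simp only [Fm.ren, Fm.vars, Tm.vars_ren, Finset.image_union]
  | neg A h => simp only [Fm.ren, Fm.vars, h]
  | and A B hA hB => simp only [Fm.ren, Fm.vars, hA, hB, Finset.image_union]
  | or A B hA hB => simp only [Fm.ren, Fm.vars, hA, hB, Finset.image_union]
  | ex i t A h => simp only [Fm.ren, Fm.vars, Tm.vars_ren, h, Finset.image_insert, Finset.image_union]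

theorem Fm.open_ren (ρ : ℕ → ℕ) (A : Fm) (h : A.Open) : (A.ren ρ).Open := by
  induction A with
  | eq s t => trivial
  | lt s t => trivial
  | neg A ih => exact ih h
  | and A B hA hB => exact ⟨hA h.1, hB h.2⟩
  | or A B hA hB => exact ⟨hA h.1, hB h.2⟩
  | ex i t A ih => exact h.elim

theorem E1.ren {ρ : ℕ → ℕ} {A : Fm} (h : E1 A) (hρ : Set.InjOn ρ A.vars) : E1 (A.ren ρ) := by
  induction h with
  | opn A h => exact E1.opn _ (Fm.open_ren ρ A h)
  | and A B _ _ hA hB =>
    exact E1.and _ _ (hA (hρ.mono (by simp [Fm.vars]))) (hB (hρ.mono (by simp [Fm.vars])))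
  | or A B _ _ hA hB =>
    exact E1.or _ _ (hA (hρ.mono (by simp [Fm.vars]))) (hB (hρ.mono (by simp [Fm.vars])))
  | ex i t A hi _ ih =>
    refine E1.ex _ _ _ ?_ (ih (hρ.mono ?_))
    · rw [Tm.vars_ren, Finset.mem_image]
      rintro ⟨j, hj, hji⟩
      have : j = i := hρ (by simp [Fm.vars, hj]) (by simp [Fm.vars]) hji
      exact hi (this ▸ hj)
    · intro x hx
      simp only [Fm.vars, Finset.coe_insert, Finset.coe_union, Set.mem_insert_iff, Set.mem_union]
      exact Or.inr (Or.inr hx)

variable {M : Type} [CommSemiring M]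

theorem Tm.eval_ren (ρ : ℕ → ℕ) (t : Tm) (v w : ℕ → M) (h : ∀ i ∈ t.vars, w (ρ i) = v i) :
    (t.ren ρ).eval w = t.eval v := by
  induction t with
  | var i => exact h i (by simp [Tm.vars])
  | zero => rfl
  | one => rfl
  | add s t hs ht =>
    simp only [Tm.ren, Tm.eval]
    rw [hs fun i hi => h i (by simp [Tm.vars, hi]), ht fun i hi => h i (by simp [Tm.vars, hi])]
  | mul s t hs ht =>
    simp only [Tm.ren, Tm.eval]
    rw [hs fun i hi => h i (by simp [Tm.vars, hi]), ht fun i hi => h i (by simp [Tm.vars, hi])]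

theorem Fm.holds_ren [LinearOrder M] (ρ : ℕ → ℕ) (A : Fm) (hρ : Set.InjOn ρ A.vars) (v w : ℕ → M)
    (h : ∀ i ∈ A.vars, w (ρ i) = v i) : (A.ren ρ).Holds w ↔ A.Holds v := by
  induction A generalizing v w with
  | eq s t =>
    simp only [Fm.ren, Fm.Holds]
    rw [Tm.eval_ren ρ s v w fun i hi => h i (by simp [Fm.vars, hi]),
      Tm.eval_ren ρ t v w fun i hi => h i (by simp [Fm.vars, hi])]
  | lt s t =>
    simp only [Fm.ren, Fm.Holds]
    rw [Tm.eval_ren ρ s v w fun i hi => h i (by simp [Fm.vars, hi]),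
      Tm.eval_ren ρ t v w fun i hi => h i (by simp [Fm.vars, hi])]
  | neg A ih =>
    simp only [Fm.ren, Fm.Holds]
    rw [ih hρ v w h]
  | and A B hA hB =>
    simp only [Fm.ren, Fm.Holds]
    rw [hA (hρ.mono (by simp [Fm.vars])) v w fun i hi => h i (by simp [Fm.vars, hi]),
      hB (hρ.mono (by simp [Fm.vars])) v w fun i hi => h i (by simp [Fm.vars, hi])]
  | or A B hA hB =>
    simp only [Fm.ren, Fm.Holds]
    rw [hA (hρ.mono (by simp [Fm.vars])) v w fun i hi => h i (by simp [Fm.vars, hi]),
      hB (hρ.mono (by simp [Fm.vars])) v w fun i hi => h i (by simp [Fm.vars, hi])]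
  | ex i t A ih =>
    simp only [Fm.ren, Fm.Holds]
    rw [Tm.eval_ren ρ t v w fun j hj => h j (by simp [Fm.vars, hj])]
    refine exists_congr fun a => and_congr_right fun _ => ?_
    refine ih (hρ.mono ?_) _ _ fun j hj => ?_
    · intro x hx
      simp only [Fm.vars, Finset.coe_insert, Finset.coe_union, Set.mem_insert_iff, Set.mem_union]
      exact Or.inr (Or.inr hx)
    · have hjA : j ∈ (Fm.ex i t A).vars := by simp [Fm.vars, hj]
      by_cases hji : j = i
      · subst hji
        simp
      · have h2 : ρ j ≠ ρ i := fun h3 => hji (hρ hjA (by simp [Fm.vars]) h3)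
        rw [Function.update_of_ne h2, Function.update_of_ne hji]
        exact h j hjA

/-- the truth value depends only on the variables which occur -/
theorem Fm.holds_congr [LinearOrder M] (A : Fm) (v w : ℕ → M) (h : ∀ i ∈ A.vars, v i = w i) :
    A.Holds v ↔ A.Holds w := by
  have e : A.ren id = A := by
    have ht : ∀ t : Tm, t.ren id = t := by
      intro t
      induction t with
      | var i => rfl
      | zero => rfl
      | one => rfl
      | add s t hs ht => simp only [Tm.ren, hs, ht]
      | mul s t hs ht => simp only [Tm.ren, hs, ht]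
    induction A with
    | eq s t => simp only [Fm.ren, ht]
    | lt s t => simp only [Fm.ren, ht]
    | neg A ih => simp only [Fm.ren, ih (fun i hi => h i hi)]
    | and A B hA hB =>
      simp only [Fm.ren, hA (fun i hi => h i (by simp [Fm.vars, hi])), hB (fun i hi => h i (by simp [Fm.vars, hi]))]
    | or A B hA hB =>
      simp only [Fm.ren, hA (fun i hi => h i (by simp [Fm.vars, hi])), hB (fun i hi => h i (by simp [Fm.vars, hi]))]
    | ex i t A ih => simp only [Fm.ren, ht, ih (fun i hi => h i (by simp [Fm.vars, hi])), id]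
  have h2 := Fm.holds_ren id A (Function.injective_id.injOn) w v (by simpa using h)
  rwa [e] at h2

/-! ### finiteness -/

theorem Tm.card_vars (t : Tm) : t.vars.card ≤ t.len := by
  induction t with
  | var i => simp [Tm.vars, Tm.len]
  | zero => simp [Tm.vars]
  | one => simp [Tm.vars]
  | add s t hs ht =>
    have := Finset.card_union_le s.vars t.vars
    simp only [Tm.vars, Tm.len]
    omega
  | mul s t hs ht =>
    have := Finset.card_union_le s.vars t.vars
    simp only [Tm.vars, Tm.len]
    omega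

theorem Fm.card_vars (A : Fm) : A.vars.card ≤ A.len := by
  induction A with
  | eq s t =>
    have := Finset.card_union_le s.vars t.vars
    have := s.card_vars
    have := t.card_vars
    simp only [Fm.vars, Fm.len]
    omega
  | lt s t =>
    have := Finset.card_union_le s.vars t.vars
    have := s.card_vars
    have := t.card_vars
    simp only [Fm.vars, Fm.len]
    omega
  | neg A h => exact h.trans (Nat.le_succ _)
  | and A B hA hB =>
    have := Finset.card_union_le A.vars B.vars
    simp only [Fm.vars, Fm.len]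
    omega
  | or A B hA hB =>
    have := Finset.card_union_le A.vars B.vars
    simp only [Fm.vars, Fm.len]
    omega
  | ex i t A h =>
    have h1 := Finset.card_union_le t.vars A.vars
    have h2 := Finset.card_insert_le i (t.vars ∪ A.vars)
    have h3 := t.card_vars
    simp only [Fm.vars, Fm.len]
    omega

theorem Tm.finite (n c : ℕ) : {t : Tm | t.len ≤ n ∧ ∀ i ∈ t.vars, i ≤ c}.Finite := by
  induction n with
  | zero =>
    refine Set.Finite.subset Set.finite_empty ?_
    rintro t ⟨h, _⟩
    cases t <;> simp [Tm.len] at h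
  | succ n ih =>
    refine Set.Finite.subset (((Set.finite_Iic c).image Tm.var).union ((Set.finite_singleton Tm.zero).union
      ((Set.finite_singleton Tm.one).union ((ih.image2 Tm.add ih).union (ih.image2 Tm.mul ih))))) ?_
    rintro t ⟨h1, h2⟩
    cases t with
    | var i => exact Or.inl ⟨i, h2 i (by simp [Tm.vars]), rfl⟩
    | zero => exact Or.inr (Or.inl rfl)
    | one => exact Or.inr (Or.inr (Or.inl rfl))
    | add s t =>
      simp only [Tm.len] at h1
      exact Or.inr (Or.inr (Or.inr (Or.inl ⟨s, ⟨by omega, fun i hi => h2 i (by simp [Tm.vars, hi])⟩, t,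
        ⟨by omega, fun i hi => h2 i (by simp [Tm.vars, hi])⟩, rfl⟩)))
    | mul s t =>
      simp only [Tm.len] at h1
      exact Or.inr (Or.inr (Or.inr (Or.inr ⟨s, ⟨by omega, fun i hi => h2 i (by simp [Tm.vars, hi])⟩, t,
        ⟨by omega, fun i hi => h2 i (by simp [Tm.vars, hi])⟩, rfl⟩)))

theorem Fm.finite (n c : ℕ) : {A : Fm | A.len ≤ n ∧ ∀ i ∈ A.vars, i ≤ c}.Finite := by
  induction n with
  | zero =>
    refine Set.Finite.subset Set.finite_empty ?_
    rintro A ⟨h, _⟩
    cases A <;> simp [Fm.len] at h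
  | succ n ih =>
    have ht := Tm.finite n c
    refine Set.Finite.subset ((ht.image2 Fm.eq ht).union ((ht.image2 Fm.lt ht).union ((ih.image Fm.neg).union
      ((ih.image2 Fm.and ih).union ((ih.image2 Fm.or ih).union
      ((Set.finite_Iic c).image2 (fun i (p : Tm × Fm) => Fm.ex i p.1 p.2) (ht.prod ih))))))) ?_
    rintro A ⟨h1, h2⟩
    cases A with
    | eq s t =>
      simp only [Fm.len] at h1
      exact Or.inl ⟨s, ⟨by omega, fun i hi => h2 i (by simp [Fm.vars, hi])⟩, t,
        ⟨by omega, fun i hi => h2 i (by simp [Fm.vars, hi])⟩, rfl⟩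
    | lt s t =>
      simp only [Fm.len] at h1
      exact Or.inr (Or.inl ⟨s, ⟨by omega, fun i hi => h2 i (by simp [Fm.vars, hi])⟩, t,
        ⟨by omega, fun i hi => h2 i (by simp [Fm.vars, hi])⟩, rfl⟩)
    | neg A =>
      simp only [Fm.len] at h1
      exact Or.inr (Or.inr (Or.inl ⟨A, ⟨by omega, fun i hi => h2 i hi⟩, rfl⟩))
    | and A B =>
      simp only [Fm.len] at h1
      exact Or.inr (Or.inr (Or.inr (Or.inl ⟨A, ⟨by omega, fun i hi => h2 i (by simp [Fm.vars, hi])⟩, B,
        ⟨by omega, fun i hi => h2 i (by simp [Fm.vars, hi])⟩, rfl⟩)))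
    | or A B =>
      simp only [Fm.len] at h1
      exact Or.inr (Or.inr (Or.inr (Or.inr (Or.inl ⟨A, ⟨by omega, fun i hi => h2 i (by simp [Fm.vars, hi])⟩, B,
        ⟨by omega, fun i hi => h2 i (by simp [Fm.vars, hi])⟩, rfl⟩))))
    | ex i t A =>
      simp only [Fm.len] at h1
      exact Or.inr (Or.inr (Or.inr (Or.inr (Or.inr ⟨i, h2 i (by simp [Fm.vars]), (t, A),
        ⟨⟨show t.len ≤ n by omega, fun i hi => h2 i (by simp [Fm.vars, hi])⟩,
        ⟨show A.len ≤ n by omega, fun i hi => h2 i (by simp [Fm.vars, hi])⟩⟩, rfl⟩))))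

/-! ### models of `PA⁻` -/

namespace PAminus

variable [LinearOrder M] (P : PAminus M)

include P

theorem add_le {x y : M} (h : x ≤ y) (z : M) : x + z ≤ y + z := by
  rcases h.lt_or_eq with h | h
  · exact (P.add_lt x y z h).le
  · rw [h]

theorem add_le_add {x y z w : M} (h : x ≤ y) (h' : z ≤ w) : x + z ≤ y + w := by
  refine (P.add_le h z).trans ?_
  rw [add_comm y z, add_comm y w]
  exact P.add_le h' y

theorem mul_le {x y : M} (h : x ≤ y) (z : M) : x * z ≤ y * z := by
  rcases h.lt_or_eq with h | h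
  · rcases (P.nonneg z).lt_or_eq with hz | hz
    · exact (P.mul_lt x y z hz h).le
    · rw [← hz, mul_zero, mul_zero]
  · rw [h]

theorem mul_le_mul {x y z w : M} (h : x ≤ y) (h' : z ≤ w) : x * z ≤ y * w := by
  refine (P.mul_le h z).trans ?_
  rw [mul_comm y z, mul_comm y w]
  exact P.mul_le h' y

theorem succ_le {x y : M} (h : x < y) : x + 1 ≤ y := by
  obtain ⟨z, hz⟩ := P.sub x y h
  have hz0 : 0 < z := by
    rcases (P.nonneg z).lt_or_eq with h0 | h0
    · exact h0
    · rw [← h0, add_zero] at hz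
      exact absurd hz h.ne
  rw [← hz, add_comm x 1, add_comm x z]
  exact P.add_le (P.discrete z hz0) x

theorem lt_succ (x : M) : x < x + 1 := by
  have := P.add_lt 0 1 x P.zero_lt_one
  rwa [zero_add, add_comm] at this

theorem add_cancel {x y z : M} (h : x + z = y + z) : x = y := by
  rcases lt_trichotomy x y with h1 | h1 | h1
  · exact absurd h (P.add_lt x y z h1).ne
  · exact h1
  · exact absurd h (P.add_lt y x z h1).ne'

theorem le_add (x y : M) : x ≤ x + y := by
  have := P.add_le_add (le_refl x) (P.nonneg y)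
  rwa [add_zero] at this

theorem natCast_inj {m n : ℕ} (h : (m : M) = (n : M)) : m = n := by
  have hlt : ∀ a b : ℕ, a < b → (a : M) < (b : M) := by
    intro a b hab
    induction hab with
    | refl =>
      rw [Nat.cast_succ]
      exact P.lt_succ _
    | step _ ih =>
      rw [Nat.cast_succ]
      exact ih.trans (P.lt_succ _)
  rcases lt_trichotomy m n with h1 | h1 | h1
  · exact absurd h (hlt m n h1).ne
  · exact h1
  · exact absurd h (hlt n m h1).ne'

end PAminus

/-- the pairing function -/
def pr (x y : M) : M := (x + y) * (x + y) + x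

theorem PAminus.pr_inj [LinearOrder M] (P : PAminus M) {x y x' y' : M} (h : pr x y = pr x' y') : x = x' ∧ y = y' := by
  have key : ∀ a b a' b' : M, a + b < a' + b' → pr a b < pr a' b' := by
    intro a b a' b' hs
    have h1 := P.succ_le hs
    have h2 : (a + b + 1) * (a + b + 1) ≤ (a' + b') * (a' + b') := P.mul_le_mul h1 h1
    have h3 : (a + b) * (a + b) + a < (a + b + 1) * (a + b + 1) := by
      have e : (a + b + 1) * (a + b + 1) = ((a + b) * (a + b) + a) + ((b + (a + b)) + 1) := by ring
      rw [e]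
      refine lt_of_le_of_lt (P.le_add _ (b + (a + b))) ?_
      rw [← add_assoc ((a + b) * (a + b) + a) (b + (a + b)) 1]
      exact P.lt_succ _
    exact h3.trans_le (h2.trans (P.le_add _ _))
  have hs : x + y = x' + y' := by
    rcases lt_trichotomy (x + y) (x' + y') with h1 | h1 | h1
    · exact absurd h (key _ _ _ _ h1).ne
    · exact h1
    · exact absurd h (key _ _ _ _ h1).ne'
  have hx : x = x' := by
    unfold pr at h
    rw [hs, add_comm _ x, add_comm _ x'] at h
    exact P.add_cancel h
  refine ⟨hx, ?_⟩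
  rw [hx, add_comm x' y, add_comm x' y'] at hs
  exact P.add_cancel hs

theorem PAminus.le_sq [LinearOrder M] (P : PAminus M) (x : M) : x ≤ x * x := by
  rcases (P.nonneg x).lt_or_eq with h | h
  · have := P.mul_le (P.discrete x h) x
    rwa [one_mul] at this
  · rw [← h, mul_zero]

theorem PAminus.left_le_pr [LinearOrder M] (P : PAminus M) (x y : M) : x ≤ pr x y := by
  unfold pr
  rw [add_comm]
  exact P.le_add _ _

theorem PAminus.right_le_pr [LinearOrder M] (P : PAminus M) (x y : M) : y ≤ pr x y := by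
  have h1 : y ≤ x + y := by
    rw [add_comm]
    exact P.le_add _ _
  exact (h1.trans (P.le_sq _)).trans (P.le_add _ _)

end Pool.Agent.H98.EU
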