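import Pool.Agent.H61.EU.Beta

/-!
# Beta: remainders code sequences of standard length in every model of `PA⁻` (proofs: H61/EU/Beta)
-/

set_option autoImplicit false

namespace Pool.Agent.H98.EU

theorem bt_le {M : Type} [CommSemiring M] [LinearOrder M] (P : PAminus M) {a b i r : M} (h : Bt a b i r) : r ≤ a :=
  Pool.Agent.H61.EU.bt_le P h

theorem bt_unique {M : Type} [CommSemiring M] [LinearOrder M] (P : PAminus M) {a b i r r' : M} (h : Bt a b i r)
    (h' : Bt a b i r') : r = r' :=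
  Pool.Agent.H61.EU.bt_unique P h h'

theorem beta (N : ℕ) : ∃ E : ℕ, ∀ (M : Type) [CommSemiring M] [LinearOrder M], PAminus M → ∀ (w : ℕ → M) (W : M),
    (∀ i < N, w i ≤ W) → ∃ a b : M, a ≤ (W + 2) ^ E ∧ b ≤ (W + 2) ^ E ∧ ∀ i < N, Bt a b (i : M) (w i) :=
  Pool.Agent.H61.EU.beta N

end Pool.Agent.H98.EU
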