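import Mathlib

/-!
# Bounded formulas of arithmetic: definitions (MP_e47d5c_lc)

Terms and bounded formulas in the language `0, 1, +, ·, <` with the variables `x_0, x_1, …`, their truth in a commutative
semiring with a linear order, the axioms `PA⁻`, the classes `Δ₀` and `E₁`.
-/

set_option autoImplicit false

namespace Pool.Agent.H98.EU

/-- terms -/
inductive Tm : Type
  | var (i : ℕ) : Tm
  | zero : Tm
  | one : Tm
  | add (s t : Tm) : Tm
  | mul (s t : Tm) : Tm

/-- number of symbols -/
def Tm.len : Tm → ℕ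
  | .var _ => 1
  | .zero => 1
  | .one => 1
  | .add s t => s.len + t.len + 1
  | .mul s t => s.len + t.len + 1

/-- the variables of a term -/
def Tm.vars : Tm → Finset ℕ
  | .var i => {i}
  | .zero => ∅
  | .one => ∅
  | .add s t => s.vars ∪ t.vars
  | .mul s t => s.vars ∪ t.vars

/-- value of a term, the value of `x_i` is `v i` -/
def Tm.eval {M : Type} [CommSemiring M] (v : ℕ → M) : Tm → M
  | .var i => v i
  | .zero => 0
  | .one => 1
  | .add s t => s.eval v + t.eval v
  | .mul s t => s.eval v * t.eval v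

/-- Formulas; `ex i t A` is `∃ x_i ≤ t, A`. The universal quantifier `∀ x_i ≤ t, A` is `¬ ∃ x_i ≤ t, ¬ A`. -/
inductive Fm : Type
  | eq (s t : Tm) : Fm
  | lt (s t : Tm) : Fm
  | neg (A : Fm) : Fm
  | and (A B : Fm) : Fm
  | or (A B : Fm) : Fm
  | ex (i : ℕ) (t : Tm) (A : Fm) : Fm

/-- number of symbols -/
def Fm.len : Fm → ℕ
  | .eq s t => s.len + t.len + 1
  | .lt s t => s.len + t.len + 1
  | .neg A => A.len + 1
  | .and A B => A.len + B.len + 1
  | .or A B => A.len + B.len + 1
  | .ex _ t A => t.len + A.len + 2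

/-- all variables of a formula, free or bound -/
def Fm.vars : Fm → Finset ℕ
  | .eq s t => s.vars ∪ t.vars
  | .lt s t => s.vars ∪ t.vars
  | .neg A => A.vars
  | .and A B => A.vars ∪ B.vars
  | .or A B => A.vars ∪ B.vars
  | .ex i t A => insert i (t.vars ∪ A.vars)

/-- truth of a formula in `M`, the value of `x_i` is `v i` -/
def Fm.Holds {M : Type} [CommSemiring M] [LinearOrder M] : Fm → (ℕ → M) → Prop
  | .eq s t, v => s.eval v = t.eval v
  | .lt s t, v => s.eval v < t.eval v
  | .neg A, v => ¬ A.Holds v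
  | .and A B, v => A.Holds v ∧ B.Holds v
  | .or A B, v => A.Holds v ∨ B.Holds v
  | .ex i t A, v => ∃ a : M, a ≤ t.eval v ∧ A.Holds (Function.update v i a)

/-- `Δ₀` formulas: in `∃ x_i ≤ t, A` the variable `x_i` does not occur in `t` -/
inductive Delta0 : Fm → Prop
  | eq (s t : Tm) : Delta0 (.eq s t)
  | lt (s t : Tm) : Delta0 (.lt s t)
  | neg (A : Fm) (h : Delta0 A) : Delta0 (.neg A)
  | and (A B : Fm) (hA : Delta0 A) (hB : Delta0 B) : Delta0 (.and A B)
  | or (A B : Fm) (hA : Delta0 A) (hB : Delta0 B) : Delta0 (.or A B)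
  | ex (i : ℕ) (t : Tm) (A : Fm) (hi : i ∉ t.vars) (h : Delta0 A) : Delta0 (.ex i t A)

/-- quantifier-free formulas -/
def Fm.Open : Fm → Prop
  | .eq _ _ => True
  | .lt _ _ => True
  | .neg A => A.Open
  | .and A B => A.Open ∧ B.Open
  | .or A B => A.Open ∧ B.Open
  | .ex _ _ _ => False

/-- `E₁` formulas: built from quantifier-free formulas by conjunction, disjunction and bounded existential quantifiers -/
inductive E1 : Fm → Prop
  | opn (A : Fm) (h : A.Open) : E1 A
  | and (A B : Fm) (hA : E1 A) (hB : E1 B) : E1 (.and A B)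
  | or (A B : Fm) (hA : E1 A) (hB : E1 B) : E1 (.or A B)
  | ex (i : ℕ) (t : Tm) (A : Fm) (hi : i ∉ t.vars) (h : E1 A) : E1 (.ex i t A)

/-- The order axioms of `PA⁻` (the axioms of a commutative semiring and of a linear order are in the instances). -/
structure PAminus (M : Type) [CommSemiring M] [LinearOrder M] : Prop where
  add_lt : ∀ x y z : M, x < y → x + z < y + z
  mul_lt : ∀ x y z : M, 0 < z → x < y → x * z < y * z
  sub : ∀ x y : M, x < y → ∃ z, x + z = y
  zero_lt_one : (0 : M) < 1
  discrete : ∀ x : M, 0 < x → 1 ≤ x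
  nonneg : ∀ x : M, 0 ≤ x

end Pool.Agent.H98.EU
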