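import Pool.Agent.H98.EU.Main
import Pool.Agent.H98.EU.Beta

/-!
# The formula `omega`
-/

set_option autoImplicit false

namespace Pool.Agent.H98.EU

/-- the remainder of `x_a` modulo `1 + (i + 1) x_b` is `r` -/
def BtF (a b : ℕ) (i r : Tm) : Fm :=
  .ex 20 (.var a) (.and (.eq (.var a) (.add (.mul (.var 20) (.add .one (.mul (.add i .one) (.var b)))) r))
    (.lt r (.add .one (.mul (.add i .one) (.var b)))))

/-- the relation of an instruction, `x_10, x_15, x_16, x_17, x_18` -/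
def RlF : Fm :=
  .or (.and (.eq (.var 10) (num 0)) (.eq (.add (.mul (.var 15) (.var 16)) (.var 17)) (.var 18)))
    (.or (.and (.eq (.var 10) (num 1)) (.or (.and (.eq (.var 18) .one) (.eq (.var 15) (.var 16)))
      (.and (.eq (.var 18) .zero) (.neg (.eq (.var 15) (.var 16))))))
    (.or (.and (.eq (.var 10) (num 2)) (.or (.and (.eq (.var 18) .one) (.lt (.var 15) (.var 16)))
      (.and (.eq (.var 18) .zero) (.neg (.lt (.var 15) (.var 16))))))
    (.and (.eq (.var 10) (num 3)) (.neg (.lt (.var 16) (.var 15))))))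

def coreF : Fm :=
  .and (BtF 6 7 (.var 11) (.var 15)) (.and (BtF 6 7 (.var 12) (.var 16)) (.and (BtF 6 7 (.var 13) (.var 17))
    (.and (BtF 6 7 (.var 14) (.var 18)) RlF)))

def core2F : Fm := .ex 15 (.var 6) (.ex 16 (.var 6) (.ex 17 (.var 6) (.ex 18 (.var 6) coreF)))

/-- instruction number `x_8` of `(x_2, x_3)` is satisfied by `(x_6, x_7)` -/
def stepF : Fm :=
  .ex 9 (.var 2) (.and (BtF 2 3 (.var 8) (.var 9)) (.ex 10 (.var 9) (.ex 11 (.var 9) (.ex 12 (.var 9) (.ex 13 (.var 9)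
    (.ex 14 (.var 9) (.and (.eq (.var 9) (prT (.var 10) (prT (.var 11) (prT (.var 12) (prT (.var 13) (.var 14))))))
      core2F)))))))

def bodyF : Fm :=
  .ex 6 (.var 5) (.ex 7 (.var 5) (.and (BtF 6 7 .zero (.var 1)) (.and (BtF 6 7 .one .one)
    (.and (BtF 6 7 (num 2) .zero) (.neg (.ex 8 (.var 4) (.and (.lt (.var 8) (.var 4)) (.neg stepF))))))))

/-- `x_0` codes a solvable system -/
def omega : Fm :=
  .ex 1 (.var 0) (.ex 2 (.var 0) (.ex 3 (.var 0) (.ex 4 (.var 0) (.ex 5 (.var 0)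
    (.and (.eq (.var 0) (prT (.var 1) (prT (.var 2) (prT (.var 3) (prT (.var 4) (.var 5)))))) bodyF)))))

section

variable {M : Type} [CommSemiring M] [LinearOrder M]

/-- an instruction is satisfied -/
def Stp (e f a b i : M) : Prop := ∃ J, Bt e f i J ∧ ∃ o j k l m, J = pr o (pr j (pr k (pr l m))) ∧
  ∃ r s t u, Bt a b j r ∧ Bt a b k s ∧ Bt a b l t ∧ Bt a b m u ∧ Rl o r s t u

theorem holds_BtF (P : PAminus M) (a b : ℕ) (i r : Tm) (ha : a ≠ 20) (hb : b ≠ 20) (hi : 20 ∉ i.vars)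
    (hr : 20 ∉ r.vars) (v : ℕ → M) : (BtF a b i r).Holds v ↔ Bt (v a) (v b) (i.eval v) (r.eval v) := by
  have h1 : ∀ q : M, i.eval (Function.update v 20 q) = i.eval v := fun q =>
    Tm.eval_congr i _ _ fun j hj => Function.update_of_ne (fun h => hi (by rwa [h] at hj)) _ _
  have h2 : ∀ q : M, r.eval (Function.update v 20 q) = r.eval v := fun q =>
    Tm.eval_congr r _ _ fun j hj => Function.update_of_ne (fun h => hr (by rwa [h] at hj)) _ _
  have h3 : ∀ q : M, Function.update v 20 q a = v a := fun q => Function.update_of_ne ha _ _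
  have h4 : ∀ q : M, Function.update v 20 q b = v b := fun q => Function.update_of_ne hb _ _
  simp only [BtF, Fm.Holds, Tm.eval, h1, h2, h3, h4, Function.update_self, Bt]
  constructor
  · rintro ⟨q, _, h5, h6⟩
    exact ⟨q, h5, h6⟩
  · rintro ⟨q, h5, h6⟩
    refine ⟨q, ?_, h5, h6⟩
    have h7 : q * 1 ≤ q * (1 + (i.eval v + 1) * v b) := P.mul_le_mul (le_refl q) (P.le_add _ _)
    rw [mul_one] at h7
    have h8 := h7.trans (P.le_add _ (r.eval v))
    rwa [← h5] at h8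

theorem holds_RlF (v : ℕ → M) : RlF.Holds v ↔ Rl (v 10) (v 15) (v 16) (v 17) (v 18) := by
  simp only [RlF, Fm.Holds, Tm.eval, num_eval, Rl, not_lt, ne_eq]

theorem holds_coreF (P : PAminus M) (v : ℕ → M) : coreF.Holds v ↔ Bt (v 6) (v 7) (v 11) (v 15) ∧
    Bt (v 6) (v 7) (v 12) (v 16) ∧ Bt (v 6) (v 7) (v 13) (v 17) ∧ Bt (v 6) (v 7) (v 14) (v 18) ∧
    Rl (v 10) (v 15) (v 16) (v 17) (v 18) := by
  unfold coreF
  simp only [Fm.Holds, holds_RlF]
  rw [holds_BtF P _ _ _ _ (by decide) (by decide) (by simp [Tm.vars]) (by simp [Tm.vars]),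
    holds_BtF P _ _ _ _ (by decide) (by decide) (by simp [Tm.vars]) (by simp [Tm.vars]),
    holds_BtF P _ _ _ _ (by decide) (by decide) (by simp [Tm.vars]) (by simp [Tm.vars]),
    holds_BtF P _ _ _ _ (by decide) (by decide) (by simp [Tm.vars]) (by simp [Tm.vars])]
  rfl

theorem holds_core2F (P : PAminus M) (v : ℕ → M) : core2F.Holds v ↔ ∃ r s t u, Bt (v 6) (v 7) (v 11) r ∧
    Bt (v 6) (v 7) (v 12) s ∧ Bt (v 6) (v 7) (v 13) t ∧ Bt (v 6) (v 7) (v 14) u ∧ Rl (v 10) r s t u := by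
  unfold core2F
  simp only [Fm.Holds, holds_coreF P, Tm.eval]
  simp only [Function.update_apply, Nat.reduceEqDiff, if_false, if_true]
  constructor
  · rintro ⟨r, _, s, _, t, _, u, _, h⟩
    exact ⟨r, s, t, u, h⟩
  · rintro ⟨r, s, t, u, h1, h2, h3, h4, h5⟩
    exact ⟨r, bt_le P h1, s, bt_le P h2, t, bt_le P h3, u, bt_le P h4, h1, h2, h3, h4, h5⟩

theorem holds_stepF (P : PAminus M) (v : ℕ → M) : stepF.Holds v ↔ Stp (v 2) (v 3) (v 6) (v 7) (v 8) := by
  have hb : ∀ w : ℕ → M, (BtF 2 3 (.var 8) (.var 9)).Holds w ↔ Bt (w 2) (w 3) (w 8) (w 9) := fun w =>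
    holds_BtF P _ _ _ _ (by decide) (by decide) (by simp [Tm.vars]) (by simp [Tm.vars]) w
  unfold stepF Stp
  simp only [Fm.Holds, hb, holds_core2F P, Tm.eval, prT_eval]
  simp only [Function.update_apply, Nat.reduceEqDiff, if_false, if_true]
  constructor
  · rintro ⟨J, _, h1, o, _, j, _, k, _, l, _, m, _, h2, h3⟩
    exact ⟨J, h1, o, j, k, l, m, h2, h3⟩
  · rintro ⟨J, h1, o, j, k, l, m, h2, h3⟩
    refine ⟨J, bt_le P h1, h1, o, ?_, j, ?_, k, ?_, l, ?_, m, ?_, h2, h3⟩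
    · rw [h2]
      exact P.left_le_pr _ _
    · rw [h2]
      exact (P.left_le_pr _ _).trans (P.right_le_pr _ _)
    · rw [h2]
      exact ((P.left_le_pr _ _).trans (P.right_le_pr _ _)).trans (P.right_le_pr _ _)
    · rw [h2]
      exact (((P.left_le_pr _ _).trans (P.right_le_pr _ _)).trans (P.right_le_pr _ _)).trans (P.right_le_pr _ _)
    · rw [h2]
      exact (((P.right_le_pr _ _).trans (P.right_le_pr _ _)).trans (P.right_le_pr _ _)).trans (P.right_le_pr _ _)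

theorem holds_bodyF (P : PAminus M) (v : ℕ → M) : bodyF.Holds v ↔ ∃ a b, a ≤ v 5 ∧ b ≤ v 5 ∧
    Bt a b ((0 : ℕ) : M) (v 1) ∧ Bt a b ((1 : ℕ) : M) 1 ∧ Bt a b ((2 : ℕ) : M) 0 ∧
    ∀ i, i < v 4 → Stp (v 2) (v 3) a b i := by
  have hb1 : ∀ w : ℕ → M, (BtF 6 7 .zero (.var 1)).Holds w ↔ Bt (w 6) (w 7) ((0 : ℕ) : M) (w 1) := fun w => by
    rw [holds_BtF P _ _ _ _ (by decide) (by decide) (by simp [Tm.vars]) (by simp [Tm.vars]) w, Nat.cast_zero]
    rfl
  have hb2 : ∀ w : ℕ → M, (BtF 6 7 .one .one).Holds w ↔ Bt (w 6) (w 7) ((1 : ℕ) : M) 1 := fun w => by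
    rw [holds_BtF P _ _ _ _ (by decide) (by decide) (by simp [Tm.vars]) (by simp [Tm.vars]) w, Nat.cast_one]
    rfl
  have hb3 : ∀ w : ℕ → M, (BtF 6 7 (num 2) .zero).Holds w ↔ Bt (w 6) (w 7) ((2 : ℕ) : M) 0 := fun w => by
    rw [holds_BtF P _ _ _ _ (by decide) (by decide) (by simp [num, Tm.vars]) (by simp [Tm.vars]) w, num_eval]
    rfl
  unfold bodyF
  simp only [Fm.Holds, hb1, hb2, hb3, holds_stepF P, Tm.eval]
  simp only [Function.update_apply, Nat.reduceEqDiff, if_false, if_true, OfNat.ofNat_ne_zero, OfNat.ofNat_ne_one,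
    OfNat.zero_ne_ofNat, OfNat.one_ne_ofNat]
  constructor
  · rintro ⟨a, ha, b, hb, h1, h2, h3, h4⟩
    refine ⟨a, b, ha, hb, h1, h2, h3, fun i hi => ?_⟩
    by_contra h5
    exact h4 ⟨i, hi.le, hi, h5⟩
  · rintro ⟨a, b, ha, hb, h1, h2, h3, h4⟩
    refine ⟨a, ha, b, hb, h1, h2, h3, ?_⟩
    rintro ⟨i, _, hi, h5⟩
    exact h5 (h4 i hi)

theorem holds_omega (P : PAminus M) (v : ℕ → M) : omega.Holds v ↔ ∃ X e f n z, v 0 = pr X (pr e (pr f (pr n z))) ∧
    ∃ a b, a ≤ z ∧ b ≤ z ∧ Bt a b ((0 : ℕ) : M) X ∧ Bt a b ((1 : ℕ) : M) 1 ∧ Bt a b ((2 : ℕ) : M) 0 ∧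
    ∀ i, i < n → Stp e f a b i := by
  unfold omega
  simp only [Fm.Holds, holds_bodyF P, Tm.eval, prT_eval]
  simp only [Function.update_apply, Nat.reduceEqDiff, if_false, if_true, OfNat.ofNat_ne_zero, OfNat.ofNat_ne_one,
    OfNat.zero_ne_ofNat, OfNat.one_ne_ofNat, zero_ne_one]
  constructor
  · rintro ⟨X, _, e, _, f, _, n, _, z, _, h1, h2⟩
    exact ⟨X, e, f, n, z, h1, h2⟩
  · rintro ⟨X, e, f, n, z, h1, h2⟩
    refine ⟨X, ?_, e, ?_, f, ?_, n, ?_, z, ?_, h1, h2⟩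
    · rw [h1]
      exact P.left_le_pr _ _
    · rw [h1]
      exact (P.left_le_pr _ _).trans (P.right_le_pr _ _)
    · rw [h1]
      exact ((P.left_le_pr _ _).trans (P.right_le_pr _ _)).trans (P.right_le_pr _ _)
    · rw [h1]
      exact (((P.left_le_pr _ _).trans (P.right_le_pr _ _)).trans (P.right_le_pr _ _)).trans (P.right_le_pr _ _)
    · rw [h1]
      exact (((P.right_le_pr _ _).trans (P.right_le_pr _ _)).trans (P.right_le_pr _ _)).trans (P.right_le_pr _ _)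

end

/-- `omega` is a bounded formula -/
theorem delta0_omega : Delta0 omega := by
  have hB : ∀ a b i r, a ≠ 20 → Delta0 (BtF a b i r) := fun a b i r ha =>
    Delta0.ex _ _ _ (by simpa [Tm.vars] using fun h : 20 = a => ha h.symm)
      (Delta0.and _ _ (Delta0.eq _ _) (Delta0.lt _ _))
  have hR : Delta0 RlF := Delta0.of_open (by simp [RlF, Fm.Open])
  have hcore : Delta0 coreF := Delta0.and _ _ (hB _ _ _ _ (by decide)) (Delta0.and _ _ (hB _ _ _ _ (by decide))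
    (Delta0.and _ _ (hB _ _ _ _ (by decide)) (Delta0.and _ _ (hB _ _ _ _ (by decide)) hR)))
  have hcore2 : Delta0 core2F := Delta0.ex _ _ _ (by simp [Tm.vars]) (Delta0.ex _ _ _ (by simp [Tm.vars])
    (Delta0.ex _ _ _ (by simp [Tm.vars]) (Delta0.ex _ _ _ (by simp [Tm.vars]) hcore)))
  have hstep : Delta0 stepF := Delta0.ex _ _ _ (by simp [Tm.vars]) (Delta0.and _ _ (hB _ _ _ _ (by decide))
    (Delta0.ex _ _ _ (by simp [Tm.vars]) (Delta0.ex _ _ _ (by simp [Tm.vars]) (Delta0.ex _ _ _ (by simp [Tm.vars])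
    (Delta0.ex _ _ _ (by simp [Tm.vars]) (Delta0.ex _ _ _ (by simp [Tm.vars]) (Delta0.and _ _ (Delta0.eq _ _) hcore2)))))))
  have hbody : Delta0 bodyF := Delta0.ex _ _ _ (by simp [Tm.vars]) (Delta0.ex _ _ _ (by simp [Tm.vars])
    (Delta0.and _ _ (hB _ _ _ _ (by decide)) (Delta0.and _ _ (hB _ _ _ _ (by decide))
    (Delta0.and _ _ (hB _ _ _ _ (by decide)) (Delta0.neg _ (Delta0.ex _ _ _ (by simp [Tm.vars])
    (Delta0.and _ _ (Delta0.lt _ _) (Delta0.neg _ hstep))))))))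
  exact Delta0.ex _ _ _ (by simp [Tm.vars]) (Delta0.ex _ _ _ (by simp [Tm.vars]) (Delta0.ex _ _ _ (by simp [Tm.vars])
    (Delta0.ex _ _ _ (by simp [Tm.vars]) (Delta0.ex _ _ _ (by simp [Tm.vars]) (Delta0.and _ _ (Delta0.eq _ _) hbody)))))

end Pool.Agent.H98.EU
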