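import Pool.Agent.H63.EU.Sys2

/-!
# Sys: every (prenex) `E₁` formula is equivalent to the solvability of a system of instructions (proof: H63/EU/Sys2)
-/

set_option autoImplicit false

namespace Pool.Agent.H98.EU

theorem esys {A : Fm} (hA : PrenexE1 A) : ∀ (N : ℕ) (ρ : ℕ → ℕ), 3 ≤ N → (∀ i ∈ A.vars, ρ i < N) →
    ∃ (S : List Ins) (N' : ℕ), N ≤ N' ∧ Below N' S ∧
    (∀ (M : Type) [CommSemiring M] [LinearOrder M], PAminus M → ∀ w : ℕ → M, w 1 = 1 → w 2 = 0 → Sat S w →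
      A.Holds (fun i => w (ρ i))) ∧
    Cpl N N' S (fun _ _ _ w => A.Holds (fun i => w (ρ i))) :=
  Pool.Agent.H63.EU.esys hA

end Pool.Agent.H98.EU
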