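import Pool.Agent.H98.EU.Red
import Pool.Agent.H98.EU.Om
import Pool.Agent.H98.EU.Sys

/-!
# The formula `omega` is complete
-/

set_option autoImplicit false

namespace Pool.Agent.H98.EU

/-! ### formulas with one variable -/

/-- `x_0` codes parameters for which `B` (renamed) is true -/
def oneF (c : ℕ) (B : Fm) : Fm := exs c (.and (.eq (.var 0) (cdT (params c))) B)

theorem E1_oneF (c : ℕ) {B : Fm} (hB : E1 B) : E1 (oneF c B) := E1_exs _ (E1.and _ _ (E1.opn _ trivial) hB)

theorem holds_oneF {M : Type} [CommSemiring M] [LinearOrder M] (P : PAminus M) (c : ℕ) (B : Fm)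
    (hB : ∀ i ∈ B.vars, 1 ≤ i ∧ i ≤ c) (u : ℕ → M) (v : ℕ → M)
    (hv : v 0 = cd ((List.range c).map fun i => u (i + 1))) : (oneF c B).Holds v ↔ B.Holds u := by
  unfold oneF
  rw [holds_exs]
  constructor
  · rintro ⟨w, _, h2, h3, h4⟩
    have h3' : w 0 = (cdT (params c)).eval w := h3
    rw [cdT_eval, params_eval, h2 0 (Or.inl rfl), hv] at h3'
    have h8 := cd_inj P _ _ (by simp) h3'
    refine (Fm.holds_congr _ _ _ fun i hi => ?_).1 h4
    obtain ⟨h5, h6⟩ := hB i hi
    have h9 := List.map_inj_left.1 h8 (i - 1) (by simp; omega)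
    have h10 : i - 1 + 1 = i := by omega
    rw [h10] at h9
    exact h9.symm
  · intro h
    refine ⟨fun i => if i = 0 then v 0 else if i ≤ c then u i else v i, fun i h1 h2 => ?_, fun i hi => ?_, ?_, ?_⟩
    · beta_reduce
      rw [if_neg (by omega), if_pos h2, hv]
      refine le_cd P _ _ ?_
      exact List.mem_map.2 ⟨i - 1, by simp; omega, by congr 1; omega⟩
    · rcases hi with rfl | hi
      · simp
      · beta_reduce
        rw [if_neg (by omega), if_neg (by omega)]
    · show Tm.eval (fun i => if i = 0 then v 0 else if i ≤ c then u i else v i) (Tm.var 0) =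
        Tm.eval (fun i => if i = 0 then v 0 else if i ≤ c then u i else v i) (cdT (params c))
      rw [cdT_eval, params_eval]
      show (if (0 : ℕ) = 0 then v 0 else if 0 ≤ c then u 0 else v 0) = _
      rw [if_pos rfl, hv]
      congr 1
      refine List.map_congr_left fun i hi => ?_
      rw [List.mem_range] at hi
      rw [if_neg (by omega), if_pos (by omega)]
    · refine (Fm.holds_congr _ _ _ fun i hi => ?_).1 h
      obtain ⟨h5, h6⟩ := hB i hi
      rw [if_neg (by omega), if_pos h6]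

/-! ### numbers -/

theorem PAminus.lt_cast {M : Type} [CommSemiring M] [LinearOrder M] (P : PAminus M) (n : ℕ) (x : M)
    (h : x < (n : M)) : ∃ k < n, x = (k : M) := by
  induction n with
  | zero =>
    rw [Nat.cast_zero] at h
    exact absurd h (not_lt.2 (P.nonneg x))
  | succ n ih =>
    rcases lt_trichotomy x (n : M) with h1 | h1 | h1
    · obtain ⟨k, hk, hx⟩ := ih h1
      exact ⟨k, hk.trans (Nat.lt_succ_self n), hx⟩
    · exact ⟨n, Nat.lt_succ_self n, h1⟩
    · have h2 := P.succ_le h1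
      rw [Nat.cast_succ] at h
      exact absurd h (not_lt.2 h2)

theorem PAminus.cast_lt {M : Type} [CommSemiring M] [LinearOrder M] (P : PAminus M) {m n : ℕ} (h : m < n) :
    (m : M) < (n : M) := by
  induction h with
  | refl =>
    rw [Nat.cast_succ]
    exact P.lt_succ _
  | step _ ih =>
    rw [Nat.cast_succ]
    exact ih.trans (P.lt_succ _)

theorem paNat : PAminus ℕ where
  add_lt := fun x y z h => by omega
  mul_lt := fun x y z hz h => Nat.mul_lt_mul_of_pos_right h hz
  sub := fun x y h => ⟨y - x, by omega⟩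
  zero_lt_one := Nat.zero_lt_one
  discrete := fun x h => h
  nonneg := fun x => Nat.zero_le x

theorem bt_cast {M : Type} [CommSemiring M] [LinearOrder M] (P : PAminus M) {a b i r : ℕ} (h : Bt a b i r) :
    Bt (a : M) (b : M) (i : M) (r : M) := by
  obtain ⟨q, h1, h2⟩ := h
  refine ⟨(q : M), ?_, ?_⟩
  · rw [h1]
    push_cast
    ring
  · have h3 := P.cast_lt h2
    push_cast at h3
    exact h3

theorem pr_cast {M : Type} [CommSemiring M] (a b : ℕ) : ((pr a b : ℕ) : M) = pr (a : M) (b : M) := by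
  unfold pr
  push_cast
  ring

/-- powers as terms -/
def powT (t : Tm) : ℕ → Tm
  | 0 => .one
  | n + 1 => .mul (powT t n) t

theorem powT_eval {M : Type} [CommSemiring M] (t : Tm) (n : ℕ) (v : ℕ → M) : (powT t n).eval v = t.eval v ^ n := by
  induction n with
  | zero => simp [powT, Tm.eval]
  | succ n ih => simp [powT, Tm.eval, ih, pow_succ]

/-- the code of an instruction -/
def insCode (c : Ins) : ℕ := pr c.o (pr c.j (pr c.k (pr c.l c.m)))

/-! ### completeness -/

theorem complete {B : Fm} (hB : E1 B) : ∃ τ : Tm, ∀ (M : Type) [CommSemiring M] [LinearOrder M], PAminus M →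
    ∀ v w : ℕ → M, w 0 = τ.eval v → (omega.Holds w ↔ B.Holds v) := by
  classical
  set c := B.len with hc
  set ρ : ℕ → ℕ := fun i => rk B.vars i + 1 with hρ
  have hinj : Set.InjOn ρ B.vars := fun i hi j hj hij => rk_injOn B.vars hi hj (Nat.succ_injective hij)
  have hρc : ∀ i ∈ B.vars, ρ i ≤ c := fun i hi => by
    have h1 := rk_lt_card hi
    have h2 := B.card_vars
    simp only [hρ]
    omega
  have hvars : ∀ i ∈ (B.ren ρ).vars, 1 ≤ i ∧ i ≤ c := by
    intro i hi
    rw [Fm.vars_ren, Finset.mem_image] at hi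
    obtain ⟨k, hk, rfl⟩ := hi
    exact ⟨Nat.succ_pos _, hρc k hk⟩
  obtain ⟨A2, hA2, hA2eq⟩ := prenex (E1_oneF c (hB.ren hinj))
  obtain ⟨S, N', hN', hS, hsound, E1', hcompl⟩ := esys hA2 3 (fun _ => 0) le_rfl (fun _ _ => by norm_num)
  obtain ⟨E2, hbeta⟩ := beta N'
  -- the code of the system
  obtain ⟨e, f, hef⟩ : ∃ e f : ℕ, ∀ i (hi : i < S.length), Bt e f i (insCode S[i]) := by
    obtain ⟨E0, h0⟩ := beta S.length
    obtain ⟨a, b, _, _, h1⟩ := h0 ℕ paNat (fun i => if hi : i < S.length then insCode S[i] else 0)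
      ((S.map insCode).sum) (fun i hi => by
        rw [dif_pos hi]
        exact List.single_le_sum (fun _ _ => Nat.zero_le _) _ (List.mem_map.2 ⟨_, List.getElem_mem hi, rfl⟩))
    refine ⟨a, b, fun i hi => ?_⟩
    have h2 := h1 i hi
    rw [dif_pos hi] at h2
    exact h2
  set τk : ℕ → Tm := fun k => if h : ∃ i ∈ B.vars, ρ i = k then .var h.choose else .zero with hτk
  set Xt : Tm := cdT ((List.range c).map fun i => τk (i + 1)) with hXt
  set E3 := (E1' + 2) * E2 with hE3
  set Zt : Tm := powT (.add (.add Xt .one) (.add .one .one)) E3 with hZt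
  refine ⟨prT Xt (prT (num e) (prT (num f) (prT (num S.length) Zt))), ?_⟩
  intro M _ _ P v w hw
  set u : ℕ → M := fun k => (τk k).eval v with hu
  have huv : ∀ i ∈ B.vars, u (ρ i) = v i := by
    intro i hi
    have h1 : ∃ i' ∈ B.vars, ρ i' = ρ i := ⟨i, hi, rfl⟩
    simp only [hu, hτk, dif_pos h1, Tm.eval]
    rw [hinj h1.choose_spec.1 hi h1.choose_spec.2]
  set X : M := cd ((List.range c).map fun i => u (i + 1)) with hX
  have hXt' : Xt.eval v = X := by
    rw [hXt, cdT_eval, List.map_map, hX]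
    rfl
  set z : M := (X + 1 + 2) ^ E3 with hz
  have hZt' : Zt.eval v = z := by
    rw [hZt, powT_eval]
    show (Xt.eval v + 1 + (1 + 1)) ^ E3 = z
    rw [hXt', one_add_one_eq_two]
  rw [prT_eval, prT_eval, prT_eval, prT_eval, hXt', hZt', num_eval, num_eval, num_eval] at hw
  have hAB : ∀ v' : ℕ → M, v' 0 = X → (A2.Holds v' ↔ B.Holds v) := by
    intro v' hv'
    rw [← hA2eq M P v', holds_oneF P c _ hvars u v' hv']
    exact Fm.holds_ren ρ B hinj _ _ huv
  rw [holds_omega P, ← hAB (fun _ => X) rfl]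
  constructor
  · rintro ⟨X', e', f', n', z', h1, a, b, _, _, hb0, hb1, hb2, hst⟩
    rw [hw] at h1
    obtain ⟨q1, g1⟩ := P.pr_inj h1
    obtain ⟨q2, g2⟩ := P.pr_inj g1
    obtain ⟨q3, g3⟩ := P.pr_inj g2
    obtain ⟨q4, _⟩ := P.pr_inj g3
    rw [← q1] at hb0
    rw [← q2, ← q3, ← q4] at hst
    set y : ℕ → M := fun p => if h : ∃ r, Bt a b (p : M) r then h.choose else 0 with hy
    have hyr : ∀ (p : ℕ) (r : M), Bt a b (p : M) r → y p = r := by
      intro p r hr
      have h2 : ∃ r, Bt a b (p : M) r := ⟨r, hr⟩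
      simp only [hy, dif_pos h2]
      exact bt_unique P h2.choose_spec hr
    have hsat : Sat S y := by
      intro ins hins
      obtain ⟨i, hi, rfl⟩ := List.getElem_of_mem hins
      obtain ⟨J, hJ, o, j, k, l, m, hJe, r, s, t, t', h2, h3, h4, h5, h6⟩ := hst (i : M) (P.cast_lt hi)
      have h7 := bt_unique P hJ (bt_cast P (hef i hi))
      rw [h7] at hJe
      unfold insCode at hJe
      rw [pr_cast, pr_cast, pr_cast, pr_cast] at hJe
      obtain ⟨ho, hJe⟩ := P.pr_inj hJe
      obtain ⟨hj, hJe⟩ := P.pr_inj hJe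
      obtain ⟨hk, hJe⟩ := P.pr_inj hJe
      obtain ⟨hl, hm⟩ := P.pr_inj hJe
      rw [← hj] at h2
      rw [← hk] at h3
      rw [← hl] at h4
      rw [← hm] at h5
      rw [← ho] at h6
      rw [hyr _ _ h2, hyr _ _ h3, hyr _ _ h4, hyr _ _ h5]
      exact h6
    have h8 := hsound M P y (hyr 1 1 hb1) (hyr 2 0 hb2) hsat
    have h9 : y 0 = X := hyr 0 X hb0
    simpa only [h9] using h8
  · intro hA
    set w0 : ℕ → M := fun p => if p = 0 then X else if p = 1 then 1 else 0 with hw0
    have h1 : ∀ i < 3, w0 i ≤ X + 1 := by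
      intro i _
      simp only [hw0]
      split_ifs
      · exact P.le_add _ _
      · rw [add_comm]
        exact P.le_add _ _
      · exact P.nonneg _
    obtain ⟨w', ha, hbd, hsat⟩ := hcompl M P w0 (X + 1) (by simp [hw0]) (by simp [hw0]) h1 (by
      show A2.Holds (fun _ => w0 0)
      have : w0 0 = X := by simp [hw0]
      rw [this]
      exact hA)
    obtain ⟨a, b, ha', hb', hbt⟩ := hbeta M P w' ((X + 1 + 2) ^ E1') hbd
    have h0 : w' 0 = X := by rw [ha 0 (by norm_num)]; simp [hw0]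
    have h1' : w' 1 = 1 := by rw [ha 1 (by norm_num)]; simp [hw0]
    have h2' : w' 2 = 0 := by rw [ha 2 (by norm_num)]; simp [hw0]
    have hle := P.comp_bd (X + 1) E1' E2
    refine ⟨X, e, f, S.length, z, hw, a, b, ha'.trans hle, hb'.trans hle, ?_, ?_, ?_, fun i hi => ?_⟩
    · have h3 := hbt 0 (by omega)
      rwa [h0] at h3
    · have h3 := hbt 1 (by omega)
      rwa [h1'] at h3
    · have h3 := hbt 2 (by omega)
      rwa [h2'] at h3
    · obtain ⟨k, hk, rfl⟩ := P.lt_cast _ _ hi
      obtain ⟨b1, b2, b3, b4⟩ := hS S[k] (List.getElem_mem hk)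
      refine ⟨_, bt_cast P (hef k hk), (S[k].o : M), (S[k].j : M), (S[k].k : M), (S[k].l : M), (S[k].m : M), ?_,
        w' S[k].j, w' S[k].k, w' S[k].l, w' S[k].m, hbt _ b1, hbt _ b2, hbt _ b3, hbt _ b4, hsat _ (List.getElem_mem hk)⟩
      unfold insCode
      rw [pr_cast, pr_cast, pr_cast, pr_cast]

/-- substitution of a term for `x_0` in an `E₁` formula -/
theorem subst0 {E : Fm} (hE : E1 E) (τ : Tm) : ∃ F, E1 F ∧ ∀ (M : Type) [CommSemiring M] [LinearOrder M],
    PAminus M → ∀ v : ℕ → M, ∃ v' : ℕ → M, v' 0 = τ.eval v ∧ (F.Holds v ↔ E.Holds v') := by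
  obtain ⟨z, hz⟩ := Infinite.exists_notMem_finset (insert 0 (τ.vars ∪ E.vars))
  simp only [Finset.mem_insert, Finset.mem_union, not_or] at hz
  obtain ⟨hz0, hzτ, hzE⟩ := hz
  set σ : ℕ → ℕ := fun i => Equiv.swap 0 z i with hσ
  have hσinj : Set.InjOn σ E.vars := (Equiv.swap 0 z).injective.injOn
  refine ⟨.ex z τ (.and (.eq (.var z) τ) (E.ren σ)),
    E1.ex _ _ _ hzτ (E1.and _ _ (E1.opn _ trivial) (hE.ren hσinj)), ?_⟩
  intro M _ _ P v
  have hτx' : ∀ a, τ.eval (Function.update v z a) = τ.eval v := by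
    intro a
    refine Tm.eval_congr τ _ _ fun i hi => Function.update_of_ne ?_ _ _
    rintro rfl
    exact hzτ hi
  refine ⟨fun i => Function.update v z (τ.eval v) (σ i), ?_, ?_⟩
  · show Function.update v z (τ.eval v) (Equiv.swap 0 z 0) = τ.eval v
    rw [Equiv.swap_apply_left, Function.update_self]
  · rw [← Fm.holds_ren σ E hσinj (fun i => Function.update v z (τ.eval v) (σ i))
      (Function.update v z (τ.eval v)) fun i _ => rfl]
    constructor
    · rintro ⟨a, _, h7, h8⟩
      have h9 : a = τ.eval v := by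
        have h10 : Function.update v z a z = τ.eval (Function.update v z a) := h7
        rwa [Function.update_self, hτx'] at h10
      rw [← h9]
      exact h8
    · intro h6
      refine ⟨τ.eval v, le_rfl, ?_, h6⟩
      show Function.update v z (τ.eval v) z = τ.eval (Function.update v z (τ.eval v))
      rw [Function.update_self, hτx']

theorem reduction1 (K : (M : Type) → [CommSemiring M] → [LinearOrder M] → Prop)
    (hK : ∀ (M : Type) [CommSemiring M] [LinearOrder M], K M → PAminus M) :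
    (∀ A, Delta0 A → ∃ B, PrenexE1 B ∧ ∀ (M : Type) [CommSemiring M] [LinearOrder M], K M → ∀ v : ℕ → M,
      (A.Holds v ↔ B.Holds v)) ↔
    ∃ B, PrenexE1 B ∧ ∀ (M : Type) [CommSemiring M] [LinearOrder M], K M → ∀ v : ℕ → M,
      ((Fm.neg omega).Holds v ↔ B.Holds v) := by
  refine ⟨fun h => h _ (Delta0.neg _ delta0_omega), fun ⟨E, hE, hEq⟩ A hA => ?_⟩
  have main : ∀ A, Delta0 A → ∃ B, E1 B ∧ ∀ (M : Type) [CommSemiring M] [LinearOrder M], K M → ∀ v : ℕ → M,
      (A.Holds v ↔ B.Holds v) := by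
    intro A hA
    induction hA with
    | eq s t => exact ⟨.eq s t, E1.opn _ trivial, fun M _ _ _ v => Iff.rfl⟩
    | lt s t => exact ⟨.lt s t, E1.opn _ trivial, fun M _ _ _ v => Iff.rfl⟩
    | neg A _ ih =>
      obtain ⟨B, hB, hAB⟩ := ih
      obtain ⟨τ, hτ⟩ := complete hB
      obtain ⟨F, hF, hF2⟩ := subst0 hE.E1 τ
      refine ⟨F, hF, fun M _ _ hM v => ?_⟩
      obtain ⟨v', h1, h2⟩ := hF2 M (hK M hM) v
      rw [h2, ← hEq M hM v']
      exact not_congr ((hAB M hM v).trans (hτ M (hK M hM) v v' h1).symm)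
    | and A A' _ _ ih ih' =>
      obtain ⟨B, hB, hAB⟩ := ih
      obtain ⟨B', hB', hAB'⟩ := ih'
      exact ⟨_, E1.and _ _ hB hB', fun M _ _ hM v => and_congr (hAB M hM v) (hAB' M hM v)⟩
    | or A A' _ _ ih ih' =>
      obtain ⟨B, hB, hAB⟩ := ih
      obtain ⟨B', hB', hAB'⟩ := ih'
      exact ⟨_, E1.or _ _ hB hB', fun M _ _ hM v => or_congr (hAB M hM v) (hAB' M hM v)⟩
    | ex i t A hi _ ih =>
      obtain ⟨B, hB, hAB⟩ := ih
      exact ⟨_, E1.ex i t _ hi hB, fun M _ _ hM v =>
        exists_congr fun a => and_congr_right fun _ => hAB M hM _⟩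
  obtain ⟨B, hB, hAB⟩ := main A hA
  obtain ⟨B', hB', hBB'⟩ := prenex hB
  exact ⟨B', hB', fun M _ _ hM v => (hAB M hM v).trans (hBB' M (hK M hM) v)⟩

end Pool.Agent.H98.EU
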