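import Pool.Agent.H98.EU.Prenex

/-!
# Free variables
-/

set_option autoImplicit false

namespace Pool.Agent.H98.EU

/-- the free variables of a formula -/
def Fm.free : Fm → Finset ℕ
  | .eq s t => s.vars ∪ t.vars
  | .lt s t => s.vars ∪ t.vars
  | .neg A => A.free
  | .and A B => A.free ∪ B.free
  | .or A B => A.free ∪ B.free
  | .ex i t A => t.vars ∪ (A.free.erase i)

theorem Tm.eval_vars {M : Type} [CommSemiring M] (t : Tm) (v w : ℕ → M) (h : ∀ i ∈ t.vars, v i = w i) :
    t.eval v = t.eval w := by
  induction t with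
  | var i => exact h i (by simp [Tm.vars])
  | zero => rfl
  | one => rfl
  | add s t hs ht =>
    simp only [Tm.eval]
    rw [hs fun i hi => h i (by simp [Tm.vars, hi]), ht fun i hi => h i (by simp [Tm.vars, hi])]
  | mul s t hs ht =>
    simp only [Tm.eval]
    rw [hs fun i hi => h i (by simp [Tm.vars, hi]), ht fun i hi => h i (by simp [Tm.vars, hi])]

/-- the truth value depends only on the free variables -/
theorem Fm.holds_free {M : Type} [CommSemiring M] [LinearOrder M] (A : Fm) (v w : ℕ → M)
    (h : ∀ i ∈ A.free, v i = w i) : A.Holds v ↔ A.Holds w := by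
  induction A generalizing v w with
  | eq s t =>
    simp only [Fm.Holds]
    rw [Tm.eval_vars s v w fun i hi => h i (by simp [Fm.free, hi]),
      Tm.eval_vars t v w fun i hi => h i (by simp [Fm.free, hi])]
  | lt s t =>
    simp only [Fm.Holds]
    rw [Tm.eval_vars s v w fun i hi => h i (by simp [Fm.free, hi]),
      Tm.eval_vars t v w fun i hi => h i (by simp [Fm.free, hi])]
  | neg A ih => exact not_congr (ih v w h)
  | and A B hA hB =>
    exact and_congr (hA v w fun i hi => h i (by simp [Fm.free, hi])) (hB v w fun i hi => h i (by simp [Fm.free, hi]))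
  | or A B hA hB =>
    exact or_congr (hA v w fun i hi => h i (by simp [Fm.free, hi])) (hB v w fun i hi => h i (by simp [Fm.free, hi]))
  | ex i t A ih =>
    simp only [Fm.Holds]
    rw [Tm.eval_vars t v w fun j hj => h j (by simp [Fm.free, hj])]
    refine exists_congr fun a => and_congr_right fun _ => ih _ _ fun j hj => ?_
    by_cases hji : j = i
    · subst hji
      simp
    · rw [Function.update_of_ne hji, Function.update_of_ne hji]
      exact h j (by simp [Fm.free, hji, hj])

/-- the variables in a list are replaced by `0` -/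
def kill : List ℕ → Fm → Fm
  | [], A => A
  | y :: Y, A => .ex y .zero (kill Y A)

theorem kill_prenex (Y : List ℕ) {A : Fm} (hA : PrenexE1 A) : PrenexE1 (kill Y A) := by
  induction Y with
  | nil => exact hA
  | cons y Y ih => exact .ex _ _ _ (by simp [Tm.vars]) ih

theorem kill_free (Y : List ℕ) (A : Fm) : ∀ i ∈ (kill Y A).free, i ∈ A.free ∧ i ∉ Y := by
  induction Y with
  | nil =>
    intro i hi
    exact ⟨hi, by simp⟩
  | cons y Y ih =>
    intro i hi
    simp only [kill, Fm.free, Tm.vars, Finset.empty_union, Finset.mem_erase] at hi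
    obtain ⟨h1, h2⟩ := ih i hi.2
    exact ⟨h1, by simp [hi.1, h2]⟩

theorem kill_holds {M : Type} [CommSemiring M] [LinearOrder M] (P : PAminus M) (Y : List ℕ) (A : Fm) (v : ℕ → M) :
    (kill Y A).Holds v ↔ A.Holds (fun i => if i ∈ Y then 0 else v i) := by
  induction Y generalizing v with
  | nil => simp [kill]
  | cons y Y ih =>
    have h1 : (kill (y :: Y) A).Holds v ↔ (kill Y A).Holds (Function.update v y 0) := by
      constructor
      · rintro ⟨a, ha, h⟩
        have : a = 0 := le_antisymm ha (P.nonneg a)
        rwa [this] at h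
      · exact fun h => ⟨0, le_rfl, h⟩
    rw [h1, ih]
    refine Fm.holds_free A _ _ fun i _ => ?_
    by_cases hi : i ∈ Y
    · simp [hi]
    · by_cases hiy : i = y
      · subst hiy
        simp
      · simp [hi, hiy]

/-- An `E₁` formula which is equivalent to `A` can be chosen with no other free variables than those of `A`. -/
theorem exists_free (K : (M : Type) → [CommSemiring M] → [LinearOrder M] → Prop)
    (hK : ∀ (M : Type) [CommSemiring M] [LinearOrder M], K M → PAminus M) (A B : Fm) (hB : PrenexE1 B)
    (h : ∀ (M : Type) [CommSemiring M] [LinearOrder M], K M → ∀ v : ℕ → M, (A.Holds v ↔ B.Holds v)) :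
    ∃ C, PrenexE1 C ∧ C.free ⊆ A.free ∧
      ∀ (M : Type) [CommSemiring M] [LinearOrder M], K M → ∀ v : ℕ → M, (A.Holds v ↔ C.Holds v) := by
  refine ⟨kill (B.free \ A.free).toList B, kill_prenex _ hB, fun i hi => ?_, fun M _ _ hM v => ?_⟩
  · obtain ⟨h1, h2⟩ := kill_free _ _ i hi
    by_contra h3
    exact h2 (Finset.mem_toList.2 (Finset.mem_sdiff.2 ⟨h1, h3⟩))
  · rw [kill_holds (hK M hM), ← h M hM]
    refine Fm.holds_free A _ _ fun i hi => ?_
    rw [if_neg]
    rw [Finset.mem_toList, Finset.mem_sdiff]
    exact fun h4 => h4.2 hi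

end Pool.Agent.H98.EU
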