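import Pool.Agent.H98.EU.Basic

/-!
# The formulas `χ c`
-/

set_option autoImplicit false

namespace Pool.Agent.H98.EU

/-- numerals -/
def num : ℕ → Tm
  | 0 => .zero
  | n + 1 => .add (num n) .one

def prT (s t : Tm) : Tm := .add (.mul (.add s t) (.add s t)) s

def cdT : List Tm → Tm
  | [] => .zero
  | t :: l => prT t (cdT l)

def cd {M : Type} [CommSemiring M] : List M → M
  | [] => 0
  | a :: l => pr a (cd l)

/-- the disjunction of `x_0 = ⟨j + k, l⟩ ∧ r[k]` -/
def dis (l : List Tm) : ℕ → List Fm → Fm
  | _, [] => .lt .zero .zero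
  | j, A :: r => .or (.and (.eq (.var 0) (prT (num j) (cdT l))) A) (dis l (j + 1) r)

/-- `∃ x_n ≤ x_0, …, ∃ x_1 ≤ x_0, A` -/
def exs : ℕ → Fm → Fm
  | 0, A => A
  | n + 1, A => .ex (n + 1) (.var 0) (exs n A)

theorem finL (c : ℕ) : {A : Fm | E1 A ∧ A.len ≤ c ∧ ∀ i ∈ A.vars, i ≤ c}.Finite :=
  (Fm.finite c c).subset fun _ h => h.2

/-- the `E₁` formulas with at most `c` symbols in the variables `x_0, …, x_c` -/
noncomputable def L (c : ℕ) : List Fm := (finL c).toFinset.toList

theorem mem_L {c : ℕ} {A : Fm} : A ∈ L c ↔ E1 A ∧ A.len ≤ c ∧ ∀ i ∈ A.vars, i ≤ c := by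
  unfold L
  rw [Finset.mem_toList, Set.Finite.mem_toFinset]
  rfl

def params (c : ℕ) : List Tm := (List.range c).map fun i => Tm.var (i + 1)

/-- `x_0` codes a formula and parameters for which it is true -/
noncomputable def univ (c : ℕ) : Fm := exs c (dis (params c) 0 (L c))

/-- the formula `χ c` -/
noncomputable def chi (c : ℕ) : Fm := .neg (univ c)

/-! ### syntax -/

theorem Delta0.of_open {A : Fm} (h : A.Open) : Delta0 A := by
  induction A with
  | eq s t => exact Delta0.eq s t
  | lt s t => exact Delta0.lt s t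
  | neg A ih => exact Delta0.neg _ (ih h)
  | and A B hA hB => exact Delta0.and _ _ (hA h.1) (hB h.2)
  | or A B hA hB => exact Delta0.or _ _ (hA h.1) (hB h.2)
  | ex i t A ih => exact h.elim

theorem E1.delta0 {A : Fm} (h : E1 A) : Delta0 A := by
  induction h with
  | opn A h => exact Delta0.of_open h
  | and A B _ _ hA hB => exact Delta0.and _ _ hA hB
  | or A B _ _ hA hB => exact Delta0.or _ _ hA hB
  | ex i t A hi _ ih => exact Delta0.ex _ _ _ hi ih

theorem E1_dis (l : List Tm) (r : List Fm) (h : ∀ A ∈ r, E1 A) (j : ℕ) : E1 (dis l j r) := by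
  induction r generalizing j with
  | nil => exact E1.opn _ trivial
  | cons A r ih =>
    exact E1.or _ _ (E1.and _ _ (E1.opn _ trivial) (h A (by simp))) (ih (fun B hB => h B (by simp [hB])) _)

theorem E1_exs (n : ℕ) {A : Fm} (h : E1 A) : E1 (exs n A) := by
  induction n with
  | zero => exact h
  | succ n ih => exact E1.ex _ _ _ (by simp [Tm.vars]) ih

theorem E1_univ (c : ℕ) : E1 (univ c) := E1_exs _ (E1_dis _ _ (fun _ hA => (mem_L.1 hA).1) _)

/-! ### truth -/

variable {M : Type} [CommSemiring M]

theorem num_eval (n : ℕ) (v : ℕ → M) : (num n).eval v = (n : M) := by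
  induction n with
  | zero => simp [num, Tm.eval]
  | succ n ih => simp [num, Tm.eval, ih]

theorem prT_eval (s t : Tm) (v : ℕ → M) : (prT s t).eval v = pr (s.eval v) (t.eval v) := rfl

theorem cdT_eval (l : List Tm) (v : ℕ → M) : (cdT l).eval v = cd (l.map fun t => t.eval v) := by
  induction l with
  | nil => rfl
  | cons t l ih => rw [cdT, prT_eval, ih]; rfl

theorem Tm.eval_congr (t : Tm) (v w : ℕ → M) (h : ∀ i ∈ t.vars, v i = w i) : t.eval v = t.eval w := by
  induction t with
  | var i => exact h i (by simp [Tm.vars])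
  | zero => rfl
  | one => rfl
  | add s t hs ht =>
    simp only [Tm.eval]
    rw [hs fun i hi => h i (by simp [Tm.vars, hi]), ht fun i hi => h i (by simp [Tm.vars, hi])]
  | mul s t hs ht =>
    simp only [Tm.eval]
    rw [hs fun i hi => h i (by simp [Tm.vars, hi]), ht fun i hi => h i (by simp [Tm.vars, hi])]

variable [LinearOrder M]

theorem holds_dis (l : List Tm) (r : List Fm) (j : ℕ) (v : ℕ → M) : (dis l j r).Holds v ↔
    ∃ (k : ℕ) (hk : k < r.length), v 0 = pr ((j + k : ℕ) : M) (cd (l.map fun t => t.eval v)) ∧ (r[k]).Holds v := by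
  induction r generalizing j with
  | nil => simp [dis, Fm.Holds]
  | cons A r ih =>
    simp only [dis, Fm.Holds, ih, prT_eval, num_eval, cdT_eval]
    constructor
    · rintro (⟨h1, h2⟩ | ⟨k, hk, h1, h2⟩)
      · exact ⟨0, by simp, by simpa [Tm.eval] using h1, by simpa using h2⟩
      · refine ⟨k + 1, by simpa using hk, ?_, by simpa using h2⟩
        rw [h1]
        congr 2
        omega
    · rintro ⟨k, hk, h1, h2⟩
      cases k with
      | zero => exact Or.inl ⟨by simpa [Tm.eval] using h1, by simpa using h2⟩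
      | succ k =>
        refine Or.inr ⟨k, by simpa using hk, ?_, by simpa using h2⟩
        rw [h1]
        congr 2
        omega

theorem holds_exs (n : ℕ) (A : Fm) (v : ℕ → M) : (exs n A).Holds v ↔
    ∃ w : ℕ → M, (∀ i, 1 ≤ i → i ≤ n → w i ≤ v 0) ∧ (∀ i, i = 0 ∨ n < i → w i = v i) ∧ A.Holds w := by
  induction n generalizing v with
  | zero =>
    constructor
    · intro h
      exact ⟨v, fun i h1 h2 => by omega, fun _ _ => rfl, h⟩
    · rintro ⟨w, _, h2, h3⟩
      have : w = v := by
        funext i
        exact h2 i (by omega)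
      rw [← this]
      exact h3
  | succ n ih =>
    simp only [exs, Fm.Holds, Tm.eval, ih]
    constructor
    · rintro ⟨a, ha, w, h1, h2, h3⟩
      have h0 : Function.update v (n + 1) a 0 = v 0 := Function.update_of_ne (by omega) _ _
      rw [h0] at h1
      refine ⟨w, fun i hi1 hi2 => ?_, fun i hi => ?_, h3⟩
      · by_cases hin : i = n + 1
        · rw [h2 i (by omega), hin, Function.update_self]
          exact ha
        · exact h1 i hi1 (by omega)
      · rw [h2 i (by omega)]
        exact Function.update_of_ne (by omega) _ _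
    · rintro ⟨w, h1, h2, h3⟩
      refine ⟨w (n + 1), h1 _ (by omega) le_rfl, w, fun i hi1 hi2 => ?_, fun i hi => ?_, h3⟩
      · rw [Function.update_of_ne (by omega : (0 : ℕ) ≠ n + 1)]
        exact h1 i hi1 (by omega)
      · by_cases hin : i = n + 1
        · rw [hin, Function.update_self]
        · rw [Function.update_of_ne hin]
          exact h2 i (by omega)

theorem params_eval (c : ℕ) (w : ℕ → M) : ((params c).map fun t => t.eval w) = (List.range c).map fun i => w (i + 1) := by
  unfold params
  rw [List.map_map]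
  rfl

theorem cd_inj (P : PAminus M) : ∀ l l' : List M, l.length = l'.length → cd l = cd l' → l = l' := by
  intro l
  induction l with
  | nil =>
    intro l' h _
    cases l' with
    | nil => rfl
    | cons a l' => simp at h
  | cons a l ih =>
    intro l' h h2
    cases l' with
    | nil => simp at h
    | cons a' l' =>
      obtain ⟨h3, h4⟩ := P.pr_inj h2
      rw [h3, ih l' (by simpa using h) h4]

theorem le_cd (P : PAminus M) (l : List M) : ∀ a ∈ l, a ≤ cd l := by
  induction l with
  | nil =>
    intro a ha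
    simp at ha
  | cons b l ih =>
    intro a ha
    rcases List.mem_cons.1 ha with rfl | ha
    · exact P.left_le_pr _ _
    · exact (ih a ha).trans (P.right_le_pr _ _)

/-- the truth of `χ c` at a code -/
theorem chi_code (P : PAminus M) (c j : ℕ) (hj : j < (L c).length) (a : ℕ → M) (x : M)
    (hx : x = pr (j : M) (cd ((List.range c).map fun i => a (i + 1)))) (v : ℕ → M) (hv : v 0 = x) :
    (chi c).Holds v ↔ ¬ ((L c)[j]).Holds (Function.update a 0 x) := by
  have hvars : ∀ k (hk : k < (L c).length), ∀ i ∈ ((L c)[k]).vars, i ≤ c := fun k hk =>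
    (mem_L.1 (List.getElem_mem hk)).2.2
  show ¬ (univ c).Holds v ↔ _
  rw [not_iff_not]
  unfold univ
  rw [holds_exs]
  constructor
  · rintro ⟨w, _, h2, h3⟩
    rw [holds_dis] at h3
    obtain ⟨k, hk, h4, h5⟩ := h3
    rw [params_eval, h2 0 (Or.inl rfl), hv, hx, zero_add] at h4
    obtain ⟨h6, h7⟩ := P.pr_inj h4
    have hkj : j = k := P.natCast_inj h6
    subst hkj
    have h8 := cd_inj P _ _ (by simp) h7
    refine (Fm.holds_congr _ _ _ fun i hi => ?_).1 h5
    by_cases hi0 : i = 0
    · subst hi0
      rw [Function.update_self, h2 0 (Or.inl rfl), hv]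
    · rw [Function.update_of_ne hi0]
      have hic := hvars j hj i hi
      have h9 := List.map_inj_left.1 h8 (i - 1) (by simp; omega)
      have h10 : i - 1 + 1 = i := by omega
      rw [h10] at h9
      exact h9.symm
  · intro h
    refine ⟨fun i => if i = 0 then x else if i ≤ c then a i else v i, fun i h1 h2 => ?_, fun i hi => ?_, ?_⟩
    · beta_reduce
      rw [if_neg (by omega), if_pos h2, hv, hx]
      refine (le_cd P _ _ ?_).trans (P.right_le_pr _ _)
      exact List.mem_map.2 ⟨i - 1, by simp; omega, by congr 1; omega⟩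
    · rcases hi with rfl | hi
      · simp [hv]
      · beta_reduce
        rw [if_neg (by omega), if_neg (by omega)]
    · rw [holds_dis]
      refine ⟨j, hj, ?_, ?_⟩
      · rw [params_eval, zero_add]
        simp only [if_true]
        rw [hx]
        congr 2
        refine List.map_congr_left fun i hi => ?_
        rw [List.mem_range] at hi
        rw [if_neg (by omega), if_pos (by omega)]
      · refine (Fm.holds_congr _ _ _ fun i hi => ?_).1 h
        have hic := hvars j hj i hi
        by_cases hi0 : i = 0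
        · subst hi0
          simp
        · rw [Function.update_of_ne hi0, if_neg hi0, if_pos hic]

/-- the truth of `χ c` depends only on the value of `x_0` -/
theorem chi_free (c : ℕ) (v w : ℕ → M) (h : v 0 = w 0) : (chi c).Holds v ↔ (chi c).Holds w := by
  have key : ∀ v w : ℕ → M, v 0 = w 0 → (univ c).Holds v → (univ c).Holds w := by
    intro v w h hv
    unfold univ at hv ⊢
    rw [holds_exs] at hv ⊢
    obtain ⟨u, h1, h2, h3⟩ := hv
    refine ⟨fun i => if i ≤ c then u i else w i, fun i hi1 hi2 => ?_, fun i hi => ?_, ?_⟩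
    · beta_reduce
      rw [if_pos hi2, ← h]
      exact h1 i hi1 hi2
    · rcases hi with rfl | hi
      · beta_reduce
        rw [if_pos (Nat.zero_le _), h2 0 (Or.inl rfl), h]
      · beta_reduce
        rw [if_neg (by omega)]
    · rw [holds_dis] at h3 ⊢
      obtain ⟨k, hk, h4, h5⟩ := h3
      refine ⟨k, hk, ?_, ?_⟩
      · rw [params_eval] at h4 ⊢
        simp only [Nat.zero_le, if_true]
        rw [h4]
        congr 2
        refine List.map_congr_left fun i hi => ?_
        rw [List.mem_range] at hi
        rw [if_pos (by omega)]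
      · refine (Fm.holds_congr _ _ _ fun i hi => ?_).1 h5
        rw [if_pos ((mem_L.1 (List.getElem_mem hk)).2.2 i hi)]
  show ¬ (univ c).Holds v ↔ ¬ (univ c).Holds w
  rw [not_iff_not]
  exact ⟨key v w h, key w v h.symm⟩

/-! ### renaming by ranks -/

/-- the rank in a finite set -/
def rk (S : Finset ℕ) (i : ℕ) : ℕ := (S.filter fun j => j < i).card

theorem rk_lt {S : Finset ℕ} {i j : ℕ} (hi : i ∈ S) (hij : i < j) : rk S i < rk S j := by
  unfold rk
  refine Finset.card_lt_card ⟨fun k hk => ?_, fun h => ?_⟩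
  · rw [Finset.mem_filter] at hk ⊢
    exact ⟨hk.1, hk.2.trans hij⟩
  · have := h (Finset.mem_filter.2 ⟨hi, hij⟩)
    rw [Finset.mem_filter] at this
    exact absurd this.2 (lt_irrefl _)

theorem rk_injOn (S : Finset ℕ) : Set.InjOn (rk S) S := by
  intro i hi j hj h
  rcases lt_trichotomy i j with h1 | h1 | h1
  · exact absurd h (rk_lt hi h1).ne
  · exact h1
  · exact absurd h (rk_lt hj h1).ne'

theorem rk_lt_card {S : Finset ℕ} {i : ℕ} (hi : i ∈ S) : rk S i < S.card := by
  unfold rk
  refine Finset.card_lt_card ⟨Finset.filter_subset _ _, fun h => ?_⟩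
  have := h hi
  rw [Finset.mem_filter] at this
  exact absurd this.2 (lt_irrefl _)

/-- values of the renamed variables -/
theorem exists_val (S : Finset ℕ) (ρ : ℕ → ℕ) (hρ : Set.InjOn ρ S) (v : ℕ → M) :
    ∃ u : ℕ → M, ∀ i ∈ S, u (ρ i) = v i := by
  classical
  refine ⟨fun k => if h : ∃ i ∈ S, ρ i = k then v h.choose else 0, fun i hi => ?_⟩
  have h : ∃ i' ∈ S, ρ i' = ρ i := ⟨i, hi, rfl⟩
  simp only [dif_pos h]
  rw [hρ h.choose_spec.1 hi h.choose_spec.2]

/-- no `E₁` formula with at most `c` symbols is equivalent to `χ c`, with any parameters -/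
theorem chi_hard (P : PAminus M) (c : ℕ) (ψ : Fm) (hψ : E1 ψ) (hlen : ψ.len ≤ c) (v : ℕ → M) :
    ∃ x : M, ¬ ((chi c).Holds (Function.update v 0 x) ↔ ψ.Holds (Function.update v 0 x)) := by
  set S := insert 0 ψ.vars with hS
  have hS0 : 0 ∈ S := Finset.mem_insert_self _ _
  have hSc : S.card ≤ c + 1 := (Finset.card_insert_le _ _).trans (by have := ψ.card_vars; omega)
  have hsub : (ψ.vars : Set ℕ) ⊆ S := by
    rw [hS, Finset.coe_insert]
    exact Set.subset_insert _ _
  have hinj := rk_injOn S
  have h0 : rk S 0 = 0 := by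
    unfold rk
    rw [Finset.card_eq_zero, Finset.filter_eq_empty_iff]
    intro i _
    omega
  have hmem : ψ.ren (rk S) ∈ L c := by
    refine mem_L.2 ⟨hψ.ren (hinj.mono hsub), by rw [Fm.len_ren]; exact hlen, fun i hi => ?_⟩
    rw [Fm.vars_ren, Finset.mem_image] at hi
    obtain ⟨k, hk, rfl⟩ := hi
    have := rk_lt_card (hsub hk)
    omega
  obtain ⟨j, hj, hjψ⟩ := List.getElem_of_mem hmem
  obtain ⟨u, hu⟩ := exists_val S (rk S) hinj v
  refine ⟨pr (j : M) (cd ((List.range c).map fun i => u (i + 1))), fun hiff => ?_⟩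
  have h1 := chi_code P c j hj u _ rfl
    (Function.update v 0 (pr (j : M) (cd ((List.range c).map fun i => u (i + 1))))) (Function.update_self _ _ _)
  rw [hjψ, Fm.holds_ren (rk S) ψ (hinj.mono hsub)
    (Function.update v 0 (pr (j : M) (cd ((List.range c).map fun i => u (i + 1))))) _ ?_] at h1
  · rw [hiff] at h1
    by_cases h : ψ.Holds (Function.update v 0 (pr (j : M) (cd ((List.range c).map fun i => u (i + 1)))))
    · exact (h1.1 h) h
    · exact h (h1.2 h)
  · intro i hi
    by_cases hi0 : i = 0
    · subst hi0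
      rw [h0, Function.update_self, Function.update_self]
    · have h2 : rk S i ≠ 0 := by
        intro h3
        rw [← h0] at h3
        exact hi0 (hinj (hsub hi) hS0 h3)
      rw [Function.update_of_ne h2, Function.update_of_ne hi0]
      exact hu i (hsub hi)

end Pool.Agent.H98.EU
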