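import Pool.Agent.H98.EU.Basic

/-!
# Prenex normal form of `E₁` formulas
-/

set_option autoImplicit false

namespace Pool.Agent.H98.EU

/-- `E₁` formulas in prenex form: `∃ x_i ≤ t, …, ∃ x_j ≤ s, θ` with `θ` quantifier-free -/
inductive PrenexE1 : Fm → Prop
  | opn (A : Fm) (h : A.Open) : PrenexE1 A
  | ex (i : ℕ) (t : Tm) (A : Fm) (hi : i ∉ t.vars) (h : PrenexE1 A) : PrenexE1 (.ex i t A)

theorem PrenexE1.E1 {A : Fm} (h : PrenexE1 A) : E1 A := by
  induction h with
  | opn A h => exact .opn A h
  | ex i t A hi _ ih => exact .ex i t A hi ih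

/-- `∃ x_n ≤ t_0, ∃ x_(n+1) ≤ t_1, …, θ` -/
def bld : ℕ → List Tm → Fm → Fm
  | _, [], θ => θ
  | n, t :: ts, θ => .ex n t (bld (n + 1) ts θ)

/-- the variables of the bounds are earlier ones -/
def Wf : ℕ → List Tm → Prop
  | _, [] => True
  | n, t :: ts => (∀ i ∈ t.vars, i < n) ∧ Wf (n + 1) ts

theorem prenex_bld (n : ℕ) (ts : List Tm) (θ : Fm) (h : Wf n ts) (hθ : θ.Open) : PrenexE1 (bld n ts θ) := by
  induction ts generalizing n with
  | nil => exact .opn _ hθ
  | cons t ts ih => exact .ex _ _ _ (fun hn => lt_irrefl _ (h.1 n hn)) (ih _ h.2)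

theorem bld_append (n : ℕ) (ts ts' : List Tm) (θ : Fm) :
    bld n (ts ++ ts') θ = bld n ts (bld (n + ts.length) ts' θ) := by
  induction ts generalizing n with
  | nil => rfl
  | cons t ts ih =>
    simp only [List.cons_append, bld, List.length_cons]
    rw [ih, show n + 1 + ts.length = n + (ts.length + 1) by ring]

theorem Wf_append (n : ℕ) (ts ts' : List Tm) (h : Wf n ts) (h' : Wf (n + ts.length) ts') : Wf n (ts ++ ts') := by
  induction ts generalizing n with
  | nil => exact h'
  | cons t ts ih =>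
    refine ⟨h.1, ih _ h.2 ?_⟩
    rw [List.length_cons] at h'
    rwa [show n + 1 + ts.length = n + (ts.length + 1) by ring]

section

variable {M : Type} [CommSemiring M] [LinearOrder M]

theorem bld_congr (n : ℕ) (ts : List Tm) (A B : Fm) (h : ∀ v : ℕ → M, A.Holds v ↔ B.Holds v) (v : ℕ → M) :
    (bld n ts A).Holds v ↔ (bld n ts B).Holds v := by
  induction ts generalizing n v with
  | nil => exact h v
  | cons t ts ih => exact exists_congr fun a => and_congr_right fun _ => ih _ _

theorem holds_update (B : Fm) (n : ℕ) (h : ∀ i ∈ B.vars, i < n) (v : ℕ → M) (a : M) :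
    B.Holds (Function.update v n a) ↔ B.Holds v :=
  Fm.holds_congr _ _ _ fun i hi => Function.update_of_ne (h i hi).ne _ _

theorem bld_and (n : ℕ) (ts : List Tm) (θ B : Fm) (h : ∀ i ∈ B.vars, i < n) (v : ℕ → M) :
    (bld n ts (.and θ B)).Holds v ↔ (bld n ts θ).Holds v ∧ B.Holds v := by
  induction ts generalizing n v with
  | nil => exact Iff.rfl
  | cons t ts ih =>
    have h1 : ∀ a : M, (bld (n + 1) ts (.and θ B)).Holds (Function.update v n a) ↔
        (bld (n + 1) ts θ).Holds (Function.update v n a) ∧ B.Holds v := fun a => by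
      rw [ih (n + 1) (fun i hi => (h i hi).trans (Nat.lt_succ_self n)), holds_update B n h]
    simp only [bld, Fm.Holds]
    constructor
    · rintro ⟨a, ha, h2⟩
      obtain ⟨h3, h4⟩ := (h1 a).1 h2
      exact ⟨⟨a, ha, h3⟩, h4⟩
    · rintro ⟨⟨a, ha, h3⟩, h4⟩
      exact ⟨a, ha, (h1 a).2 ⟨h3, h4⟩⟩

theorem bld_or (P : PAminus M) (n : ℕ) (ts : List Tm) (θ B : Fm) (h : ∀ i ∈ B.vars, i < n) (v : ℕ → M) :
    (bld n ts (.or θ B)).Holds v ↔ (bld n ts θ).Holds v ∨ B.Holds v := by
  induction ts generalizing n v with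
  | nil => exact Iff.rfl
  | cons t ts ih =>
    have h1 : ∀ a : M, (bld (n + 1) ts (.or θ B)).Holds (Function.update v n a) ↔
        (bld (n + 1) ts θ).Holds (Function.update v n a) ∨ B.Holds v := fun a => by
      rw [ih (n + 1) (fun i hi => (h i hi).trans (Nat.lt_succ_self n)), holds_update B n h]
    simp only [bld, Fm.Holds]
    constructor
    · rintro ⟨a, ha, h2⟩
      rcases (h1 a).1 h2 with h3 | h4
      · exact Or.inl ⟨a, ha, h3⟩
      · exact Or.inr h4
    · rintro (⟨a, ha, h3⟩ | h4)
      · exact ⟨a, ha, (h1 a).2 (Or.inl h3)⟩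
      · exact ⟨0, P.nonneg _, (h1 0).2 (Or.inr h4)⟩

end

theorem prenex_aux (m : ℕ) : ∀ A : Fm, A.len ≤ m → E1 A → ∀ n, (∀ i ∈ A.vars, i < n) →
    ∃ (ts : List Tm) (θ : Fm), Wf n ts ∧ θ.Open ∧ (∀ i ∈ θ.vars, i < n + ts.length) ∧
      ∀ (M : Type) [CommSemiring M] [LinearOrder M], PAminus M → ∀ v : ℕ → M,
        (A.Holds v ↔ (bld n ts θ).Holds v) := by
  induction m with
  | zero =>
    intro A hA
    cases A <;> simp [Fm.len] at hA
  | succ m ih =>
    intro A hA hE n hn
    cases hE with
    | opn A h => exact ⟨[], A, trivial, h, by simpa using hn, fun M _ _ _ v => Iff.rfl⟩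
    | and A B h1 h2 =>
      simp only [Fm.len] at hA
      have hnA : ∀ i ∈ A.vars, i < n := fun i hi => hn i (by simp [Fm.vars, hi])
      have hnB : ∀ i ∈ B.vars, i < n := fun i hi => hn i (by simp [Fm.vars, hi])
      obtain ⟨ts, θ, a1, a2, a3, a4⟩ := ih A (by omega) h1 n hnA
      obtain ⟨ts', θ', b1, b2, b3, b4⟩ := ih B (by omega) h2 (n + ts.length) (fun i hi => (hnB i hi).trans_le (by omega))
      refine ⟨ts ++ ts', .and θ' θ, Wf_append _ _ _ a1 b1, ⟨b2, a2⟩, fun i hi => ?_, fun M _ _ P v => ?_⟩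
      · simp only [Fm.vars, Finset.mem_union] at hi
        rw [List.length_append]
        rcases hi with hi | hi
        · have := b3 i hi
          omega
        · have := a3 i hi
          omega
      · rw [bld_append]
        rw [bld_congr n ts (bld (n + ts.length) ts' (.and θ' θ)) (.and θ B) fun w => by
          rw [bld_and _ _ _ _ a3 w, ← b4 M P w]
          exact and_comm]
        rw [bld_and n ts θ B hnB v, ← a4 M P v]
        exact Iff.rfl
    | or A B h1 h2 =>
      simp only [Fm.len] at hA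
      have hnA : ∀ i ∈ A.vars, i < n := fun i hi => hn i (by simp [Fm.vars, hi])
      have hnB : ∀ i ∈ B.vars, i < n := fun i hi => hn i (by simp [Fm.vars, hi])
      obtain ⟨ts, θ, a1, a2, a3, a4⟩ := ih A (by omega) h1 n hnA
      obtain ⟨ts', θ', b1, b2, b3, b4⟩ := ih B (by omega) h2 (n + ts.length) (fun i hi => (hnB i hi).trans_le (by omega))
      refine ⟨ts ++ ts', .or θ' θ, Wf_append _ _ _ a1 b1, ⟨b2, a2⟩, fun i hi => ?_, fun M _ _ P v => ?_⟩
      · simp only [Fm.vars, Finset.mem_union] at hi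
        rw [List.length_append]
        rcases hi with hi | hi
        · have := b3 i hi
          omega
        · have := a3 i hi
          omega
      · rw [bld_append]
        rw [bld_congr n ts (bld (n + ts.length) ts' (.or θ' θ)) (.or θ B) fun w => by
          rw [bld_or P _ _ _ _ a3 w, ← b4 M P w]
          exact or_comm]
        rw [bld_or P n ts θ B hnB v, ← a4 M P v]
        exact Iff.rfl
    | ex i t A hi h =>
      simp only [Fm.len] at hA
      have hin : i < n := hn i (by simp [Fm.vars])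
      have hnt : ∀ j ∈ t.vars, j < n := fun j hj => hn j (by simp [Fm.vars, hj])
      have hnA : ∀ j ∈ A.vars, j < n := fun j hj => hn j (by simp [Fm.vars, hj])
      set σ : ℕ → ℕ := fun j => Equiv.swap i n j with hσ
      have hσinj : Set.InjOn σ A.vars := (Equiv.swap i n).injective.injOn
      obtain ⟨ts, θ, a1, a2, a3, a4⟩ := ih (A.ren σ) (by rw [Fm.len_ren]; omega) (h.ren hσinj) (n + 1) (fun j hj => by
        rw [Fm.vars_ren, Finset.mem_image] at hj
        obtain ⟨k, hk, rfl⟩ := hj
        have hkn := hnA k hk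
        by_cases hki : k = i
        · subst hki
          simp only [hσ, Equiv.swap_apply_left]
          omega
        · simp only [hσ]
          rw [Equiv.swap_apply_of_ne_of_ne hki hkn.ne]
          omega)
      refine ⟨t :: ts, θ, ⟨hnt, a1⟩, a2, fun j hj => ?_, fun M _ _ P v => ?_⟩
      · have := a3 j hj
        rw [List.length_cons]
        omega
      · refine exists_congr fun a => and_congr_right fun _ => ?_
        rw [← a4 M P]
        symm
        refine Fm.holds_ren σ A hσinj _ _ fun j hj => ?_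
        have hjn := hnA j hj
        by_cases hji : j = i
        · subst hji
          simp only [hσ, Equiv.swap_apply_left, Function.update_self]
        · simp only [hσ]
          rw [Equiv.swap_apply_of_ne_of_ne hji hjn.ne, Function.update_of_ne hjn.ne, Function.update_of_ne hji]

/-- every `E₁` formula has a prenex form -/
theorem prenex {A : Fm} (hA : E1 A) : ∃ B, PrenexE1 B ∧
    ∀ (M : Type) [CommSemiring M] [LinearOrder M], PAminus M → ∀ v : ℕ → M, (A.Holds v ↔ B.Holds v) := by
  obtain ⟨ts, θ, h1, h2, _, h4⟩ := prenex_aux A.len A le_rfl hA (A.vars.sup id + 1) fun i hi =>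
    Nat.lt_succ_of_le (Finset.le_sup (f := id) hi)
  exact ⟨_, prenex_bld _ _ _ h1 h2, h4⟩

end Pool.Agent.H98.EU
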