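import Pool.Agent.H98.EU.Main

/-!
# Reduction: all bounded formulas are equivalent to `E₁` formulas iff all `χ c` are
-/

set_option autoImplicit false

namespace Pool.Agent.H98.EU

theorem num_vars (n : ℕ) : (num n).vars = ∅ := by
  induction n with
  | zero => rfl
  | succ n ih => simp [num, Tm.vars, ih]

theorem prT_vars (s t : Tm) : (prT s t).vars = s.vars ∪ t.vars := by
  ext i
  simp only [prT, Tm.vars, Finset.mem_union]
  tauto

/-- the negation of an `E₁` formula at a code -/
theorem neg_E1 (K : (M : Type) → [CommSemiring M] → [LinearOrder M] → Prop)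
    (hK : ∀ (M : Type) [CommSemiring M] [LinearOrder M], K M → PAminus M)
    (h : ∀ c, ∃ B, E1 B ∧ ∀ (M : Type) [CommSemiring M] [LinearOrder M], K M → ∀ v : ℕ → M,
      ((chi c).Holds v ↔ B.Holds v)) (B : Fm) (hB : E1 B) :
    ∃ F, E1 F ∧ ∀ (M : Type) [CommSemiring M] [LinearOrder M], K M → ∀ v : ℕ → M, (¬ B.Holds v ↔ F.Holds v) := by
  classical
  obtain ⟨E, hE, hEq⟩ := h B.len
  set c := B.len with hc
  set ρ : ℕ → ℕ := fun i => rk B.vars i + 1 with hρ
  have hinj : Set.InjOn ρ B.vars := fun i hi j hj hij => rk_injOn B.vars hi hj (Nat.succ_injective hij)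
  have hρc : ∀ i ∈ B.vars, ρ i ≤ c := fun i hi => by
    have h1 := rk_lt_card hi
    have h2 := B.card_vars
    simp only [hρ]
    omega
  have hmem : B.ren ρ ∈ L c := by
    refine mem_L.2 ⟨hB.ren hinj, by rw [Fm.len_ren], fun i hi => ?_⟩
    rw [Fm.vars_ren, Finset.mem_image] at hi
    obtain ⟨k, hk, rfl⟩ := hi
    exact hρc k hk
  obtain ⟨j, hj, hjB⟩ := List.getElem_of_mem hmem
  -- the term for the code
  set τk : ℕ → Tm := fun k => if h : ∃ i ∈ B.vars, ρ i = k then .var h.choose else .zero with hτk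
  set τ : Tm := prT (num j) (cdT ((List.range c).map fun i => τk (i + 1))) with hτ
  obtain ⟨z, hz⟩ := Infinite.exists_notMem_finset (insert 0 (τ.vars ∪ E.vars))
  simp only [Finset.mem_insert, Finset.mem_union, not_or] at hz
  obtain ⟨hz0, hzτ, hzE⟩ := hz
  set σ : ℕ → ℕ := fun i => Equiv.swap 0 z i with hσ
  have hσinj : Set.InjOn σ E.vars := (Equiv.swap 0 z).injective.injOn
  refine ⟨.ex z τ (.and (.eq (.var z) τ) (E.ren σ)),
    E1.ex _ _ _ hzτ (E1.and _ _ (E1.opn _ trivial) (hE.ren hσinj)), ?_⟩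
  intro M _ _ hM v
  have P := hK M hM
  set u : ℕ → M := fun k => (τk k).eval v with hu
  have huv : ∀ i ∈ B.vars, u (ρ i) = v i := by
    intro i hi
    have h1 : ∃ i' ∈ B.vars, ρ i' = ρ i := ⟨i, hi, rfl⟩
    simp only [hu, hτk, dif_pos h1, Tm.eval]
    rw [hinj h1.choose_spec.1 hi h1.choose_spec.2]
  set x : M := pr (j : M) (cd ((List.range c).map fun i => u (i + 1))) with hx
  have hτx : τ.eval v = x := by
    rw [hτ, prT_eval, num_eval, cdT_eval, List.map_map, hx]
    rfl
  have hτx' : τ.eval (Function.update v z x) = x := by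
    rw [← hτx]
    refine Tm.eval_congr τ _ _ fun i hi => Function.update_of_ne ?_ _ _
    rintro rfl
    exact hzτ hi
  have h1 : (E.ren σ).Holds (Function.update v z x) ↔ E.Holds (fun i => Function.update v z x (σ i)) :=
    Fm.holds_ren σ E hσinj _ _ fun i _ => rfl
  have h2 := hEq M hM (fun i => Function.update v z x (σ i))
  have h3 : (fun i => Function.update v z x (σ i)) 0 = x := by
    show Function.update v z x (Equiv.swap 0 z 0) = x
    rw [Equiv.swap_apply_left, Function.update_self]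
  have h4 := chi_code P c j hj u x hx (fun i => Function.update v z x (σ i)) h3
  have h5 : (B.ren ρ).Holds (Function.update u 0 x) ↔ B.Holds v :=
    Fm.holds_ren ρ B hinj _ _ fun i hi => by
      rw [Function.update_of_ne (by simp [hρ])]
      exact huv i hi
  rw [hjB, h5] at h4
  rw [← h4, h2, ← h1]
  constructor
  · intro h6
    refine ⟨x, hτx.ge, ?_, h6⟩
    show Function.update v z x z = τ.eval (Function.update v z x)
    rw [Function.update_self, hτx']
  · rintro ⟨a, _, h7, h8⟩
    have h9 : a = x := by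
      have h10 : Function.update v z a z = τ.eval (Function.update v z a) := h7
      rw [Function.update_self] at h10
      rw [h10, ← hτx]
      refine Tm.eval_congr τ _ _ fun i hi => Function.update_of_ne ?_ _ _
      rintro rfl
      exact hzτ hi
    rw [← h9]
    exact h8

theorem reduction (K : (M : Type) → [CommSemiring M] → [LinearOrder M] → Prop)
    (hK : ∀ (M : Type) [CommSemiring M] [LinearOrder M], K M → PAminus M) :
    (∀ A, Delta0 A → ∃ B, E1 B ∧ ∀ (M : Type) [CommSemiring M] [LinearOrder M], K M → ∀ v : ℕ → M,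
      (A.Holds v ↔ B.Holds v)) ↔
    ∀ c, ∃ B, E1 B ∧ ∀ (M : Type) [CommSemiring M] [LinearOrder M], K M → ∀ v : ℕ → M,
      ((chi c).Holds v ↔ B.Holds v) := by
  refine ⟨fun h c => h _ (Delta0.neg _ (E1_univ c).delta0), fun h A hA => ?_⟩
  induction hA with
  | eq s t => exact ⟨.eq s t, E1.opn _ trivial, fun M _ _ _ v => Iff.rfl⟩
  | lt s t => exact ⟨.lt s t, E1.opn _ trivial, fun M _ _ _ v => Iff.rfl⟩
  | neg A _ ih =>
    obtain ⟨B, hB, hAB⟩ := ih
    obtain ⟨F, hF, hBF⟩ := neg_E1 K hK h B hB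
    exact ⟨F, hF, fun M _ _ hM v => (not_congr (hAB M hM v)).trans (hBF M hM v)⟩
  | and A A' _ _ ih ih' =>
    obtain ⟨B, hB, hAB⟩ := ih
    obtain ⟨B', hB', hAB'⟩ := ih'
    exact ⟨_, E1.and _ _ hB hB', fun M _ _ hM v => and_congr (hAB M hM v) (hAB' M hM v)⟩
  | or A A' _ _ ih ih' =>
    obtain ⟨B, hB, hAB⟩ := ih
    obtain ⟨B', hB', hAB'⟩ := ih'
    exact ⟨_, E1.or _ _ hB hB', fun M _ _ hM v => or_congr (hAB M hM v) (hAB' M hM v)⟩
  | ex i t A hi _ ih =>
    obtain ⟨B, hB, hAB⟩ := ih
    exact ⟨_, E1.ex i t _ hi hB, fun M _ _ hM v =>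
      exists_congr fun a => and_congr_right fun _ => hAB M hM _⟩

end Pool.Agent.H98.EU
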