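import Pool.Agent.H98.EU.Prenex

/-!
# A single complete formula: systems of instructions, remainders, powers

Frame: `beta`, `bt_unique`, `bt_le` (Beta.lean), `tsys`, `fsys`, `esys` (Sys.lean), the formula `omega` (Om.lean).
-/

set_option autoImplicit false

namespace Pool.Agent.H98.EU

section

variable {M : Type} [CommSemiring M] [LinearOrder M]

/-- `r` is the remainder of `a` modulo `1 + (i + 1) b` -/
def Bt (a b i r : M) : Prop := ∃ q, a = q * (1 + (i + 1) * b) + r ∧ r < 1 + (i + 1) * b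

/-- the relation of an instruction -/
def Rl (o r s t u : M) : Prop :=
  (o = ((0 : ℕ) : M) ∧ r * s + t = u) ∨ (o = ((1 : ℕ) : M) ∧ ((u = 1 ∧ r = s) ∨ (u = 0 ∧ r ≠ s))) ∨
    (o = ((2 : ℕ) : M) ∧ ((u = 1 ∧ r < s) ∨ (u = 0 ∧ ¬ r < s))) ∨ (o = ((3 : ℕ) : M) ∧ r ≤ s)

/-- an instruction: operation and four places -/
structure Ins : Type where
  o : ℕ
  j : ℕ
  k : ℕ
  l : ℕ
  m : ℕ

/-- `w` satisfies the instructions -/
def Sat (S : List Ins) (w : ℕ → M) : Prop := ∀ c ∈ S, Rl (c.o : M) (w c.j) (w c.k) (w c.l) (w c.m)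

/-- all places are below `N` -/
def Below (N : ℕ) (S : List Ins) : Prop := ∀ c ∈ S, c.j < N ∧ c.k < N ∧ c.l < N ∧ c.m < N

theorem Rl0 (P : PAminus M) {r s t u : M} : Rl ((0 : ℕ) : M) r s t u ↔ r * s + t = u := by
  unfold Rl
  constructor
  · rintro (⟨_, h⟩ | ⟨h, _⟩ | ⟨h, _⟩ | ⟨h, _⟩)
    · exact h
    · exact absurd (P.natCast_inj h) (by decide)
    · exact absurd (P.natCast_inj h) (by decide)
    · exact absurd (P.natCast_inj h) (by decide)
  · exact fun h => Or.inl ⟨rfl, h⟩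

theorem Rl1 (P : PAminus M) {r s t u : M} : Rl ((1 : ℕ) : M) r s t u ↔ (u = 1 ∧ r = s) ∨ (u = 0 ∧ r ≠ s) := by
  unfold Rl
  constructor
  · rintro (⟨h, _⟩ | ⟨_, h⟩ | ⟨h, _⟩ | ⟨h, _⟩)
    · exact absurd (P.natCast_inj h) (by decide)
    · exact h
    · exact absurd (P.natCast_inj h) (by decide)
    · exact absurd (P.natCast_inj h) (by decide)
  · exact fun h => Or.inr (Or.inl ⟨rfl, h⟩)

theorem Rl2 (P : PAminus M) {r s t u : M} : Rl ((2 : ℕ) : M) r s t u ↔ (u = 1 ∧ r < s) ∨ (u = 0 ∧ ¬ r < s) := by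
  unfold Rl
  constructor
  · rintro (⟨h, _⟩ | ⟨h, _⟩ | ⟨_, h⟩ | ⟨h, _⟩)
    · exact absurd (P.natCast_inj h) (by decide)
    · exact absurd (P.natCast_inj h) (by decide)
    · exact h
    · exact absurd (P.natCast_inj h) (by decide)
  · exact fun h => Or.inr (Or.inr (Or.inl ⟨rfl, h⟩))

theorem Rl3 (P : PAminus M) {r s t u : M} : Rl ((3 : ℕ) : M) r s t u ↔ r ≤ s := by
  unfold Rl
  constructor
  · rintro (⟨h, _⟩ | ⟨h, _⟩ | ⟨h, _⟩ | ⟨_, h⟩)
    · exact absurd (P.natCast_inj h) (by decide)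
    · exact absurd (P.natCast_inj h) (by decide)
    · exact absurd (P.natCast_inj h) (by decide)
    · exact h
  · exact fun h => Or.inr (Or.inr (Or.inr ⟨rfl, h⟩))

theorem Sat_congr {N : ℕ} {S : List Ins} (hS : Below N S) {w w' : ℕ → M} (h : ∀ i < N, w i = w' i) (hw : Sat S w) :
    Sat S w' := by
  intro c hc
  obtain ⟨h1, h2, h3, h4⟩ := hS c hc
  rw [← h _ h1, ← h _ h2, ← h _ h3, ← h _ h4]
  exact hw c hc

theorem Sat_append {S S' : List Ins} {w : ℕ → M} : Sat (S ++ S') w ↔ Sat S w ∧ Sat S' w := by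
  unfold Sat
  simp only [List.mem_append]
  exact ⟨fun h => ⟨fun c hc => h c (Or.inl hc), fun c hc => h c (Or.inr hc)⟩, fun h c hc => hc.elim (h.1 c) (h.2 c)⟩

theorem Below_append {N : ℕ} {S S' : List Ins} : Below N (S ++ S') ↔ Below N S ∧ Below N S' := by
  unfold Below
  simp only [List.mem_append]
  exact ⟨fun h => ⟨fun c hc => h c (Or.inl hc), fun c hc => h c (Or.inr hc)⟩, fun h c hc => hc.elim (h.1 c) (h.2 c)⟩

theorem Below_mono {N N' : ℕ} {S : List Ins} (h : Below N S) (hN : N ≤ N') : Below N' S := fun c hc =>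
  ⟨(h c hc).1.trans_le hN, (h c hc).2.1.trans_le hN, (h c hc).2.2.1.trans_le hN, (h c hc).2.2.2.trans_le hN⟩

/-! ### powers of `W + 2` -/

theorem PAminus.one_le (P : PAminus M) (W : M) : 1 ≤ W + 2 := by
  have h := P.add_le_add (P.nonneg W) (show (1 : M) ≤ 2 by rw [← one_add_one_eq_two]; exact P.le_add 1 1)
  rwa [zero_add] at h

theorem PAminus.two_le (P : PAminus M) (W : M) : 2 ≤ W + 2 := by
  rw [add_comm]
  exact P.le_add _ _

theorem PAminus.one_le_pow (P : PAminus M) (W : M) (e : ℕ) : 1 ≤ (W + 2) ^ e := by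
  induction e with
  | zero => rw [pow_zero]
  | succ e ih =>
    rw [pow_succ]
    have := P.mul_le_mul ih (P.one_le W)
    rwa [one_mul] at this

theorem PAminus.pow_mono (P : PAminus M) (W : M) {e f : ℕ} (h : e ≤ f) : (W + 2) ^ e ≤ (W + 2) ^ f := by
  obtain ⟨g, rfl⟩ := Nat.exists_eq_add_of_le h
  rw [pow_add]
  have := P.mul_le_mul (le_refl ((W + 2) ^ e)) (P.one_le_pow W g)
  rwa [mul_one] at this

theorem PAminus.le_pow_one (P : PAminus M) {W x : M} (h : x ≤ W) : x ≤ (W + 2) ^ 1 := by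
  rw [pow_one]
  exact h.trans (P.le_add _ _)

theorem PAminus.mul_bd (P : PAminus M) {W x y : M} {e f : ℕ} (hx : x ≤ (W + 2) ^ e) (hy : y ≤ (W + 2) ^ f) :
    x * y ≤ (W + 2) ^ (e + f) := by
  rw [pow_add]
  exact P.mul_le_mul hx hy

theorem PAminus.add_bd (P : PAminus M) {W x y : M} {e f : ℕ} (hx : x ≤ (W + 2) ^ e) (hy : y ≤ (W + 2) ^ f) :
    x + y ≤ (W + 2) ^ (e + f + 1) := by
  have h1 : x + y ≤ (W + 2) ^ (e + f) + (W + 2) ^ (e + f) :=
    P.add_le_add (hx.trans (P.pow_mono W (by omega))) (hy.trans (P.pow_mono W (by omega)))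
  refine h1.trans ?_
  rw [← two_mul, pow_succ, mul_comm ((W + 2) ^ (e + f)) (W + 2)]
  exact P.mul_le (P.two_le W) _

theorem PAminus.pow_le_pow (P : PAminus M) {x y : M} (h : x ≤ y) (f : ℕ) : x ^ f ≤ y ^ f := by
  induction f with
  | zero => rw [pow_zero, pow_zero]
  | succ f ih =>
    rw [pow_succ, pow_succ]
    exact P.mul_le_mul ih h

theorem PAminus.comp_bd (P : PAminus M) (W : M) (e f : ℕ) : ((W + 2) ^ e + 2) ^ f ≤ (W + 2) ^ ((e + 2) * f) := by
  rw [pow_mul]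
  refine P.pow_le_pow ?_ f
  have h := P.add_bd (W := W) (le_refl ((W + 2) ^ e)) (show (2 : M) ≤ (W + 2) ^ 1 by rw [pow_one]; exact P.two_le W)
  exact h

theorem PAminus.cast_bd (P : PAminus M) (W : M) (n : ℕ) : (n : M) ≤ (W + 2) ^ n := by
  induction n with
  | zero =>
    rw [Nat.cast_zero]
    exact P.nonneg _
  | succ n ih =>
    rw [Nat.cast_succ]
    have h := P.add_bd (W := W) ih (show (1 : M) ≤ (W + 2) ^ 0 by rw [pow_zero])
    exact h

end

/-- the system `S` (places below `N'`) has a solution which extends given values below `N` with the property `pre` -/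
def Cpl (N N' : ℕ) (S : List Ins) (pre : (M : Type) → [CommSemiring M] → [LinearOrder M] → (ℕ → M) → Prop) : Prop :=
  ∃ E : ℕ, ∀ (M : Type) [CommSemiring M] [LinearOrder M], PAminus M → ∀ (w : ℕ → M) (W : M), w 1 = 1 → w 2 = 0 →
    (∀ i < N, w i ≤ W) → pre M w → ∃ w' : ℕ → M, (∀ i < N, w' i = w i) ∧ (∀ i < N', w' i ≤ (W + 2) ^ E) ∧ Sat S w'

end Pool.Agent.H98.EU
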